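import Pool.Agent.H4.SL.Cls

/-!
# The order of the Selmer group
-/

set_option autoImplicit false
set_option linter.all false

open Polynomial IsDedekindDomain WeierstrassCurve WeierstrassCurve.Affine WithZero
open scoped Classical nonZeroDivisors

namespace Pool.Agent.H4.SL

open Pool.Agent.TH115.GD
open Pool.Agent.H4.SA

section

variable {k K : Type} [Field k] [Field K] [Algebra k[X] K] [IsFractionRing k[X] K]

/-- Two cocycles represent the same element of the Selmer group: the difference is the coboundary of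
a point of order two. -/
def selSetoid (k : Type) {K : Type} [Field k] [Field K] [Algebra k[X] K] [IsFractionRing k[X] K]
    (W : WeierstrassCurve K) : Setoid {c : (Sep K ≃ₐ[K] Sep K) → Pt W (Sep K) // IsSel k W c} where
  r c c' := ∃ R : Pt W (Sep K), R + R = 0 ∧ ∀ σ, c.1 σ - c'.1 σ = act W (rs K σ) R - R
  iseqv :=
    { refl := fun c => ⟨0, add_zero 0, fun σ => by rw [map_zero, sub_self, sub_self]⟩
      symm := by
        rintro c c' ⟨R, hR, h⟩
        refine ⟨-R, ?_, fun σ => ?_⟩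
        · rw [← neg_add, hR, neg_zero]
        · rw [map_neg, ← neg_sub, h σ]
          abel
      trans := by
        rintro c c' c'' ⟨R, hR, h⟩ ⟨R', hR', h'⟩
        refine ⟨R + R', ?_, fun σ => ?_⟩
        · rw [add_add_add_comm, hR, hR', add_zero]
        · rw [map_add, ← sub_add_sub_cancel (c.1 σ) (c'.1 σ) (c''.1 σ), h σ, h' σ]
          abel }

/-- The Selmer group at two. -/
def SelTwo (k : Type) {K : Type} [Field k] [Field K] [Algebra k[X] K] [IsFractionRing k[X] K]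
    (W : WeierstrassCurve K) : Type := Quotient (selSetoid k W)

end

section main

variable {k K : Type} [Field k] [Fintype k] [DecidableEq k] [Field K] [Algebra k[X] K]
  [IsFractionRing k[X] K] {f : k[X]} {u : k} {S : Finset k[X]}

theorem cob_of_sign {W : WeierstrassCurve K} (hnr : ∀ x : K, cub W x ≠ 0) {a b c : Sep K}
    (hC : IsC (W.baseChange (Sep K)).toAffine a b c)
    {f g : (Sep K ≃ₐ[K] Sep K) → Pt W (Sep K)} (hf : IsSel k W f) (hg : IsSel k W g)
    (hs : ∀ σ : Sep K ≃ₐ[K] Sep K, σ a = a → sC a (f σ) = sC a (g σ)) :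
    ∃ R : Pt W (Sep K), R + R = 0 ∧ ∀ σ, f σ - g σ = act W (rs K σ) R - R := by
  have htr := fun x hx => trans_roots (F := K) hC hnr x hx
  obtain ⟨R, hR, h⟩ := cob1 hC htr (f := fun σ => f σ + g σ) (fun σ τ => by
      show f (σ * τ) + g (σ * τ) = _
      rw [hf.coc.mul, hg.coc.mul, map_add]
      abel) (fun σ => by
      show f σ + g σ + (f σ + g σ) = 0
      rw [add_add_add_comm, hf.two, hg.two, add_zero]) fun σ hσ => by
    show sC a (f σ + g σ) = 1
    rw [sC_add hC (hf.two σ) (hg.two σ), hs σ hσ, sC_mul_self]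
  refine ⟨R, hR, fun σ => ?_⟩
  have h1 : f σ - g σ = f σ + g σ := by
    rw [sub_eq_add_neg, neg_eq_of_add_eq_zero_left (hg.two σ)]
  rw [h1]
  exact h σ

/-- The bound for the order of the Selmer group. -/
theorem card_sel_le (hf : Cub f) (hu : u ≠ 0) (hS : ∀ P ∈ S, Gd f P) :
    Finite (SelTwo k (tw K f (C u * ∏ P ∈ S, P))) ∧
      Nat.card (SelTwo k (tw K f (C u * ∏ P ∈ S, P))) ≤ (Adm f u S).card := by
  obtain ⟨hnr, a, b, c, hC, Φ, h1, h2⟩ := classes (K := K) hf hu hS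
  have hinj : ∃ Ψ : SelTwo k (tw K f (C u * ∏ P ∈ S, P)) → Adm f u S, Function.Injective Ψ := by
    have hr : ∀ s : SelTwo k (tw K f (C u * ∏ P ∈ S, P)), ∃ c, Quotient.mk (selSetoid k _) c = s :=
      fun s => Quotient.exists_rep s
    choose r hr using hr
    refine ⟨fun s => ⟨Φ (r s).1, h1 _ (r s).2⟩, fun s s' h => ?_⟩
    rw [← hr s, ← hr s']
    apply Quotient.sound
    exact cob_of_sign hnr hC (r s).2 (r s').2 (h2 _ _ (r s).2 (r s').2 (congrArg Subtype.val h))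
  obtain ⟨Ψ, hΨ⟩ := hinj
  haveI : Finite (SelTwo k (tw K f (C u * ∏ P ∈ S, P))) := Finite.of_injective Ψ hΨ
  refine ⟨this, ?_⟩
  have h3 := Nat.card_le_card_of_injective Ψ hΨ
  rwa [Nat.card_eq_finsetCard] at h3

/-- If there is one colouring only, then the 2-primary part of the group of Tate and Shafarevich
is zero. -/
theorem sha_of_card (hf : Cub f) (hu : u ≠ 0) (hS : ∀ P ∈ S, Gd f P)
    (h1 : (Adm f u S).card ≤ 1) : ShaTwo k (tw K f (C u * ∏ P ∈ S, P)) := by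
  obtain ⟨hnr, a, b, c, hC, Φ, h3, h4⟩ := classes (K := K) hf hu hS
  have h5 : ∀ g g', IsSel k (tw K f (C u * ∏ P ∈ S, P)) g →
      IsSel k (tw K f (C u * ∏ P ∈ S, P)) g' →
      ∀ σ : Sep K ≃ₐ[K] Sep K, σ a = a → sC a (g σ) = sC a (g' σ) := fun g g' hg hg' =>
    h4 g g' hg hg' (Finset.card_le_one.1 h1 _ (h3 g hg) _ (h3 g' hg'))
  by_cases hex : ∃ g, IsSel k (tw K f (C u * ∏ P ∈ S, P)) g
  · obtain ⟨g, hg⟩ := hex
    exact sha_of_sign (k := k) hnr hC (ι := Unit) (r := 0) (by simp) (fun _ σ => sC a (g σ))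
      (fun g' h1' h2' h3' => ⟨(), h5 g' g ⟨h1', h2', h3'⟩ hg⟩) (fun i => i.elim0)
      (fun T hT => by
        obtain ⟨i, -⟩ := hT
        exact i.elim0)
  · exact sha_of_sign (k := k) hnr hC (ι := Unit) (r := 0) (by simp) (fun _ σ => 0)
      (fun g' h1' h2' h3' => absurd ⟨g', ⟨h1', h2', h3'⟩⟩ hex) (fun i => i.elim0)
      (fun T hT => by
        obtain ⟨i, -⟩ := hT
        exact i.elim0)

/-- The Kummer map. -/
theorem kummer (hf : Cub f) (hu : u ≠ 0) (hS : ∀ P ∈ S, Gd f P) :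
    ∃ κ : Pt (tw K f (C u * ∏ P ∈ S, P)) K → SelTwo k (tw K f (C u * ∏ P ∈ S, P)),
      ∀ P Q, κ P = κ Q → ∃ R, P - Q = R + R := by
  obtain ⟨hnr, a, b, c, hC, Φ, h3, h4⟩ := classes (K := K) hf hu hS
  set W := tw K f (C u * ∏ P ∈ S, P) with hW
  have hdiv : ∀ X : Pt W (Sep K), ∃ Y, Y + Y = X := fun X => halveC hC X
  have hG : ∀ Q : Pt W K, ∃ G : ℕ → Pt W (Sep K), G 0 = act W (incl K K (Sep K)) Q ∧
      ∀ j, 2 • G (j + 1) = G j := by
    intro Q
    obtain ⟨H, hH⟩ := hdiv (act W (incl K K (Sep K)) Q)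
    obtain ⟨G, G0, -, GS⟩ := halves hdiv hH
    exact ⟨G, G0, GS⟩
  choose G G0 GS using hG
  have hcl : ∀ Q : Pt W K, IsTateClass k W
      (fun n (σ : Sep K ≃ₐ[K] Sep K) => act W (rs K σ) (G Q n) - G Q n) := fun Q =>
    pt_class (G0 Q) (GS Q)
  have G1 : ∀ Q : Pt W K, G Q 1 + G Q 1 = act W (incl K K (Sep K)) Q := by
    intro Q
    rw [← two_nsmul, GS, G0]
  have PK : ∀ (Q : Pt W K) (φ : Sep K →ₐ[K] Sep K), act W φ (act W (incl K K (Sep K)) Q) =
      act W (incl K K (Sep K)) Q := by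
    intro Q φ
    have h1 : φ.comp (incl K K (Sep K)) = incl K K (Sep K) := AlgHom.ext fun x => φ.commutes x
    rw [act_act, h1]
  have hd2 : ∀ (Q : Pt W K) (σ : Sep K ≃ₐ[K] Sep K), (act W (rs K σ) (G Q 1) - G Q 1) +
      (act W (rs K σ) (G Q 1) - G Q 1) = 0 := by
    intro Q σ
    rw [sub_add_sub_comm, ← map_add, G1, PK, sub_self]
  refine ⟨fun Q => Quotient.mk (selSetoid k W)
    ⟨_, ⟨(hcl Q).tc.coc 1, hd2 Q, (hcl Q).loc 1⟩⟩, fun P Q h => ?_⟩
  obtain ⟨R, hR, hR'⟩ := Quotient.exact h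
  have hR'' : ∀ σ, (act W (rs K σ) (G P 1) - G P 1) - (act W (rs K σ) (G Q 1) - G Q 1) =
      act W (rs K σ) R - R := hR'
  have hfx : ∀ σ : Sep K ≃ₐ[K] Sep K, act W (rs K σ) (G P 1 - G Q 1 - R) =
      G P 1 - G Q 1 - R := by
    intro σ
    rw [← sub_eq_zero]
    have h5 := hR'' σ
    rw [map_sub, map_sub]
    have h6 : act W (rs K σ) (G P 1) - act W (rs K σ) (G Q 1) - act W (rs K σ) R -
        (G P 1 - G Q 1 - R) = (act W (rs K σ) (G P 1) - G P 1) -
      (act W (rs K σ) (G Q 1) - G Q 1) - (act W (rs K σ) R - R) := by abel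
    rw [h6, h5, sub_self]
  obtain ⟨Q0, hQ00⟩ := fixed_point (K := K) (F := K) W _ hfx
  refine ⟨Q0, ?_⟩
  refine act_inj W (incl K K (Sep K)) ?_
  rw [map_add, hQ00, map_sub, sub_add_sub_comm, sub_add_sub_comm, hR, G1, G1, sub_zero]

/-- The quotient of the Mordell-Weil group by its double. -/
abbrev ModTwo {K : Type} [Field K] (W : WeierstrassCurve K) : Type :=
  Pt W K ⧸ (zsmulAddGroupHom (2 : ℤ) : Pt W K →+ Pt W K).range

theorem card_modTwo_le (hf : Cub f) (hu : u ≠ 0) (hS : ∀ P ∈ S, Gd f P) :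
    Finite (ModTwo (tw K f (C u * ∏ P ∈ S, P))) ∧
      Nat.card (ModTwo (tw K f (C u * ∏ P ∈ S, P))) ≤
        Nat.card (SelTwo k (tw K f (C u * ∏ P ∈ S, P))) := by
  obtain ⟨κ, hκ⟩ := kummer (K := K) hf hu hS
  haveI := (card_sel_le (K := K) hf hu hS).1
  have hr : ∀ s : ModTwo (tw K f (C u * ∏ P ∈ S, P)), ∃ P, QuotientAddGroup.mk P = s :=
    fun s => QuotientAddGroup.mk_surjective s
  choose r hr using hr
  have hinj : Function.Injective fun s => κ (r s) := by
    intro s s' h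
    obtain ⟨R, hR⟩ := hκ _ _ h
    rw [← hr s, ← hr s', QuotientAddGroup.eq, AddMonoidHom.mem_range]
    refine ⟨-R, ?_⟩
    show (2 : ℤ) • (-R) = _
    rw [two_zsmul, ← neg_add, ← hR]
    abel
  exact ⟨Finite.of_injective _ hinj, Nat.card_le_card_of_injective _ hinj⟩

/-- If there is one colouring only, then all points are divisible by two. -/
theorem divisible_of_card (hf : Cub f) (hu : u ≠ 0) (hS : ∀ P ∈ S, Gd f P)
    (h1 : (Adm f u S).card ≤ 1) (P : Pt (tw K f (C u * ∏ P ∈ S, P)) K) : ∃ Q, P = Q + Q := by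
  obtain ⟨κ, hκ⟩ := kummer (K := K) hf hu hS
  obtain ⟨hfin, hle⟩ := card_sel_le (K := K) hf hu hS
  haveI := hfin
  have h2 := Finite.card_le_one_iff_subsingleton.1 (hle.trans h1)
  obtain ⟨R, hR⟩ := hκ P 0 (Subsingleton.elim _ _)
  exact ⟨R, by rw [← hR, sub_zero]⟩

end main

end Pool.Agent.H4.SL
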