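import Pool.Graph.R_pool_sql_team_seeded_ab47071d.TH115.SN.Sha

/-!
# Local points of a ramified quadratic twist, modulo squares and units close to one
-/

set_option autoImplicit false
set_option linter.all false

open Polynomial IsDedekindDomain WithZero

namespace Pool.Agent.H4.SL

section abs

variable {E Γ : Type*} [Field E] [LinearOrderedCommGroupWithZero Γ] (w : Valuation E Γ)

theorem one_add_ne {ε : E} (h : w ε < 1) : 1 + ε ≠ 0 := by
  intro h0
  have : ε = -1 := by linear_combination h0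
  rw [this, Valuation.map_neg, map_one] at h
  exact lt_irrefl _ h

theorem val_one_add {ε : E} (h : w ε < 1) : w (1 + ε) = 1 := by
  have := Valuation.map_add_eq_of_lt_right w (x := ε) (y := 1) (by rwa [map_one])
  rw [add_comm, this, map_one]

theorem div_close {ε ε' : E} (h : w ε < 1) (h' : w ε' < 1) : w ((1 + ε) / (1 + ε') - 1) < 1 := by
  have h1 := one_add_ne w h'
  have e : (1 + ε) / (1 + ε') - 1 = (ε - ε') / (1 + ε') := by
    field_simp
    ring
  rw [e, map_div₀, val_one_add w h', div_one]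
  exact lt_of_le_of_lt (Valuation.map_sub _ _ _) (max_lt h h')

/-- The point is close to the origin. -/
theorem far {δ X θ a2 a4 a6 y : E} (hδ : δ ≠ 0) (hX : 1 < w X) (h2 : w a2 ≤ 1) (h4 : w a4 ≤ 1)
    (h6 : w a6 ≤ 1) (hθ : w θ ≤ 1) (hy : y ^ 2 = δ ^ 3 * (X ^ 3 + a2 * X ^ 2 + a4 * X + a6)) :
    ∃ γ η : E, γ ≠ 0 ∧ δ * (X - θ) = γ ^ 2 * η ∧ w (η - 1) < 1 := by
  have hX0 : X ≠ 0 := by
    rintro rfl
    rw [map_zero] at hX
    exact absurd hX (not_lt.2 zero_le)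
  have hwX : w X ≠ 0 := (Valuation.ne_zero_iff w).2 hX0
  have hXi : w X⁻¹ < 1 := by
    rw [map_inv₀]
    exact inv_lt_one_of_one_lt₀ hX
  have c1 : ∀ a : E, w a ≤ 1 → w (a * X⁻¹) < 1 := fun a ha => by
    rw [map_mul]
    exact lt_of_le_of_lt (mul_le_of_le_one_left' ha) hXi
  set ε1 : E := a2 * X⁻¹ + a4 * X⁻¹ * X⁻¹ + a6 * X⁻¹ * X⁻¹ * X⁻¹ with hε1
  have m1 : ∀ {a : E}, w a < 1 → w (a * X⁻¹) < 1 := fun {a} ha => c1 a ha.le
  have he1 : w ε1 < 1 := by
    refine lt_of_le_of_lt (Valuation.map_add _ _ _) (max_lt ?_ (m1 (m1 (c1 _ h6))))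
    exact lt_of_le_of_lt (Valuation.map_add _ _ _) (max_lt (c1 _ h2) (m1 (c1 _ h4)))
  have he2 : w (-(θ * X⁻¹)) < 1 := by rw [Valuation.map_neg]; exact c1 _ hθ
  have hn1 := one_add_ne w he1
  have key : y ^ 2 = δ ^ 3 * X ^ 3 * (1 + ε1) := by
    rw [hy, hε1]
    field_simp
    ring
  have hy0 : y ≠ 0 := by
    rintro rfl
    rw [zero_pow two_ne_zero] at key
    exact mul_ne_zero (mul_ne_zero (pow_ne_zero 3 hδ) (pow_ne_zero 3 hX0)) hn1 key.symm
  refine ⟨y / (δ * X), (1 + -(θ * X⁻¹)) / (1 + ε1), div_ne_zero hy0 (mul_ne_zero hδ hX0), ?_,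
    div_close w he2 he1⟩
  rw [div_pow, key]
  field_simp
  ring

/-- The point is close to a point of order two, the root is `θ`. -/
theorem near {δ X θ a2 a4 a6 y : E} (hδ : δ ≠ 0) (hX : w X ≤ 1) (h2 : w a2 ≤ 1)
    (hθ : w θ ≤ 1) (hroot : θ ^ 3 + a2 * θ ^ 2 + a4 * θ + a6 = 0)
    (hd : w (3 * θ ^ 2 + 2 * a2 * θ + a4) = 1) (hn : w (X - θ) < 1) (hne : X ≠ θ)
    (hy : y ^ 2 = δ ^ 3 * (X ^ 3 + a2 * X ^ 2 + a4 * X + a6)) :
    ∃ γ η : E, γ ≠ 0 ∧ δ * (X - θ) = γ ^ 2 * (3 * θ ^ 2 + 2 * a2 * θ + a4) * η ∧ w (η - 1) < 1 := by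
  set d := 3 * θ ^ 2 + 2 * a2 * θ + a4 with hdd
  have hd0 : d ≠ 0 := by
    intro h0
    rw [h0, map_zero] at hd
    exact zero_ne_one hd
  set r : E := (X - θ) * (X + 2 * θ + a2) / d with hr
  have w2 : w (2 : E) ≤ 1 := by
    have : (2 : E) = 1 + 1 := by norm_num
    rw [this]
    exact (Valuation.map_add _ _ _).trans (max_le (by rw [map_one]) (by rw [map_one]))
  have hr1 : w r < 1 := by
    rw [hr, map_div₀, hd, div_one, map_mul]
    refine lt_of_le_of_lt (mul_le_of_le_one_right' ?_) hn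
    refine (Valuation.map_add _ _ _).trans (max_le ((Valuation.map_add _ _ _).trans
      (max_le hX ?_)) h2)
    rw [map_mul]
    exact mul_le_one' w2 hθ
  have hn1 := one_add_ne w hr1
  have hXθ : X - θ ≠ 0 := sub_ne_zero.2 hne
  have hq : X ^ 2 + X * θ + θ ^ 2 + a2 * (X + θ) + a4 = d * (1 + r) := by
    rw [hr]
    field_simp
    rw [hdd]
    ring
  have key : y ^ 2 = δ ^ 3 * (X - θ) * (d * (1 + r)) := by
    rw [hy, ← hq]
    linear_combination (δ ^ 3) * hroot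
  have hy0 : y ≠ 0 := by
    rintro rfl
    rw [zero_pow two_ne_zero] at key
    exact mul_ne_zero (mul_ne_zero (pow_ne_zero 3 hδ) hXθ) (mul_ne_zero hd0 hn1) key.symm
  refine ⟨y / (δ * d), 1 / (1 + r), div_ne_zero hy0 (mul_ne_zero hδ hd0), ?_, ?_⟩
  · rw [div_pow, key]
    field_simp
  · have := div_close w (ε := 0) (ε' := r) (by rw [map_zero]; exact zero_lt_one) hr1
    rwa [add_zero] at this

/-- The point is close to a point of order two, the root is not `θ`. -/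
theorem off {δ X θ p : E} (hX : w (X - p) < 1) (hθ : w (θ - p) = 1) :
    ∃ η : E, δ * (X - θ) = δ * (p - θ) * η ∧ w (η - 1) < 1 := by
  have h0 : p - θ ≠ 0 := by
    intro h
    rw [Valuation.map_sub_swap, h, map_zero] at hθ
    exact zero_ne_one hθ
  refine ⟨1 + (X - p) / (p - θ), ?_, ?_⟩
  · field_simp
    ring
  · rw [add_sub_cancel_left, map_div₀, Valuation.map_sub_swap w p θ, hθ, div_one]
    exact hX

end abs

/-- `a` and `b` differ by a square and by a unit which is one modulo the maximal ideal, in the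
completion at `𝔓`. -/
def Apx {B M : Type} [CommRing B] [IsDedekindDomain B] [Field M] [Algebra B M]
    [IsFractionRing B M] (𝔓 : HeightOneSpectrum B) (a b : M) : Prop :=
  ∃ γ η : 𝔓.adicCompletion M, γ ≠ 0 ∧
    algebraMap M (𝔓.adicCompletion M) a = γ ^ 2 * algebraMap M (𝔓.adicCompletion M) b * η ∧
    Valued.v (η - 1) < 1

section apx

variable {B M : Type} [CommRing B] [IsDedekindDomain B] [Field M] [Algebra B M]
  [IsFractionRing B M] {𝔓 : HeightOneSpectrum B}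

theorem val_unit {η : 𝔓.adicCompletion M} (h : Valued.v (η - 1) < 1) : Valued.v η = 1 := by
  have h1 := val_one_add (Valued.v : Valuation (𝔓.adicCompletion M) _) h
  rwa [add_sub_cancel] at h1

theorem Apx.valuation {a b : M} (h : Apx 𝔓 a b) :
    ∃ c : WithZero (Multiplicative ℤ), c ≠ 0 ∧ 𝔓.valuation M a = c ^ 2 * 𝔓.valuation M b := by
  obtain ⟨γ, η, hγ, e, hη⟩ := h
  refine ⟨Valued.v γ, (Valuation.ne_zero_iff _).2 hγ, ?_⟩
  have vx : ∀ x : M, Valued.v (algebraMap M (𝔓.adicCompletion M) x) = 𝔓.valuation M x :=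
    fun x => HeightOneSpectrum.valuedAdicCompletion_eq_valuation' 𝔓 x
  rw [← vx, ← vx, e, map_mul, map_mul, map_pow, val_unit hη, mul_one]

theorem Apx.isSquare {a b : M} (h : Apx 𝔓 a b) :
    IsSquare (𝔓.valuation M a) ↔ IsSquare (𝔓.valuation M b) := by
  obtain ⟨c, hc, e⟩ := h.valuation
  rw [e]
  constructor
  · rintro ⟨x, hx⟩
    refine ⟨c⁻¹ * x, ?_⟩
    rw [mul_mul_mul_comm, ← hx, ← pow_two, inv_pow, inv_mul_cancel_left₀ (pow_ne_zero 2 hc)]
  · rintro ⟨x, hx⟩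
    refine ⟨c * x, ?_⟩
    rw [hx, pow_two, mul_mul_mul_comm]

theorem Apx.mul_left {a b : M} (h : Apx 𝔓 a b) (c : M) : Apx 𝔓 (c * a) (c * b) := by
  obtain ⟨γ, η, hγ, e, hη⟩ := h
  refine ⟨γ, η, hγ, ?_, hη⟩
  rw [map_mul, e, map_mul]
  ring

theorem Apx.mul_sq_left {a b : M} (h : Apx 𝔓 a b) {c : M} (hc : c ≠ 0) : Apx 𝔓 (a * c ^ 2) b := by
  obtain ⟨γ, η, hγ, e, hη⟩ := h
  refine ⟨γ * algebraMap M (𝔓.adicCompletion M) c, η, mul_ne_zero hγ ?_, ?_, hη⟩
  · exact (_root_.map_ne_zero _).2 hc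
  · rw [map_mul, e, map_pow]
    ring

/-- Elements of the ring which are units at `𝔓`. -/
theorem Apx.exists_mod {α β : B} (h : Apx 𝔓 (algebraMap B M α) (algebraMap B M β))
    (hα : α ∉ 𝔓.asIdeal) (hβ : β ∉ 𝔓.asIdeal) : ∃ c : B, α - c ^ 2 * β ∈ 𝔓.asIdeal := by
  have vx : ∀ x : M, Valued.v (algebraMap M (𝔓.adicCompletion M) x) = 𝔓.valuation M x :=
    fun x => HeightOneSpectrum.valuedAdicCompletion_eq_valuation' 𝔓 x
  have vB : ∀ x : B, Valued.v (algebraMap M (𝔓.adicCompletion M) (algebraMap B M x)) =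
      𝔓.intValuation x := fun x => by rw [vx, 𝔓.valuation_of_algebraMap]
  have hα1 := (HeightOneSpectrum.intValuation_eq_one_iff).2 hα
  have hβ1 := (HeightOneSpectrum.intValuation_eq_one_iff).2 hβ
  obtain ⟨γ, η, hγ, e, hη⟩ := h
  have hγ1 : Valued.v γ ≤ 1 := by
    have h1 := congrArg Valued.v e
    rw [map_mul, map_mul, map_pow, vB, vB, hα1, hβ1, val_unit hη, mul_one, mul_one] at h1
    by_contra hc
    push Not at hc
    exact absurd h1.symm (ne_of_gt (one_lt_pow₀ hc two_ne_zero))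
  obtain ⟨c, hc⟩ := Pool.Agent.TH115.GD.approx 𝔓 γ hγ1
  have hc1 : Valued.v (γ - algebraMap M (𝔓.adicCompletion M) (algebraMap B M c)) < 1 := by
    refine lt_of_le_of_lt hc ?_
    rw [← exp_zero, exp_lt_exp]
    norm_num
  refine ⟨c, ?_⟩
  rw [← HeightOneSpectrum.intValuation_lt_one_iff_mem, ← vB]
  set g := algebraMap M (𝔓.adicCompletion M) (algebraMap B M c) with hg
  set bb := algebraMap M (𝔓.adicCompletion M) (algebraMap B M β) with hb
  have vg : Valued.v g ≤ 1 := by rw [hg, vB]; exact 𝔓.intValuation_le_one _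
  have vb : Valued.v bb ≤ 1 := by rw [hb, vB]; exact 𝔓.intValuation_le_one _
  have e1 : algebraMap M (𝔓.adicCompletion M) (algebraMap B M (α - c ^ 2 * β)) =
      γ ^ 2 * bb * (η - 1) + (γ - g) * ((γ + g) * bb) := by
    rw [map_sub, map_mul, map_pow, map_sub, map_mul, map_pow, e, ← hg, ← hb]
    ring
  rw [e1]
  refine lt_of_le_of_lt (Valuation.map_add _ _ _) (max_lt ?_ ?_)
  · rw [map_mul, map_mul, map_pow]
    exact lt_of_le_of_lt (mul_le_of_le_one_left' (mul_le_one' (pow_le_one₀ zero_le hγ1) vb)) hη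
  · rw [map_mul, map_mul]
    refine lt_of_le_of_lt (mul_le_of_le_one_right' (mul_le_one' ?_ vb)) hc1
    exact (Valuation.map_add _ _ _).trans (max_le hγ1 vg)

end apx

end Pool.Agent.H4.SL
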