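import Pool.Graph.R_pool_sql_team_seeded_64922ed1.X261.TD.Cls
import Pool.Agent.H4.SA.Eta

/-!
# The norm of a monic polynomial
-/

set_option autoImplicit false
set_option linter.all false

open Polynomial
open scoped Classical

namespace Pool.Agent.H4.SL

open Pool.Agent.X261.TW Pool.Agent.X261.TD Pool.Agent.TH943.HJ
open Pool.Agent.H4.SA (One zz Cub)

section comp

variable {k : Type} [Field k]

/-- The matrix of the multiplication with `x`, `f(x) = t`. -/
noncomputable def cmat (f : k[X]) : Matrix (Fin 3) (Fin 3) k[X] :=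
  !![0, 0, -(C (f.coeff 0) - X); 1, 0, -(C (f.coeff 1)); 0, 1, -(C (f.coeff 2))]

theorem det_cmat_sub (f : k[X]) (a : k) : (aeval (cmat f) (X - C a)).det =
    X - C (a ^ 3 + f.coeff 2 * a ^ 2 + f.coeff 1 * a + f.coeff 0) := by
  have e : aeval (cmat f) (X - C a) = !![-C a, 0, -(C (f.coeff 0) - X); 1, -C a, -(C (f.coeff 1));
      0, 1, -(C (f.coeff 2)) - C a] := by
    rw [map_sub, aeval_X, aeval_C]
    ext i j
    rw [Matrix.sub_apply, Matrix.algebraMap_matrix_apply]
    fin_cases i <;> fin_cases j <;> simp [cmat, Polynomial.algebraMap_eq] 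
  rw [e, Matrix.det_fin_three]
  simp
  ring

/-- The determinant of a monic polynomial in the matrix. -/
theorem det_split {g : k[X]} (hg : g.Monic) (hs : g.Splits) (f : k[X]) :
    (aeval (cmat f) g).det.Monic ∧ (aeval (cmat f) g).det.natDegree = g.natDegree := by
  let χ : k[X] →* k[X] := Matrix.detMonoidHom.comp (aeval (R := k) (cmat f)).toRingHom.toMonoidHom
  have hχ : ∀ h, χ h = (aeval (cmat f) h).det := fun h => rfl
  have e := hs.eq_prod_roots_of_monic hg
  have h1 : χ g = (g.roots.map fun a => X - C (a ^ 3 + f.coeff 2 * a ^ 2 + f.coeff 1 * a +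
      f.coeff 0)).prod := by
    conv_lhs => rw [e]
    rw [map_multiset_prod, Multiset.map_map]
    congr 1
    refine Multiset.map_congr rfl fun a _ => ?_
    rw [Function.comp_apply, hχ, det_cmat_sub]
  rw [← hχ, h1]
  constructor
  · exact monic_multiset_prod_of_monic _ _ fun a _ => monic_X_sub_C _
  · rw [natDegree_multiset_prod_of_monic]
    · rw [Multiset.map_map]
      simp only [Function.comp_def, natDegree_X_sub_C, Multiset.map_const', Multiset.sum_replicate,
        smul_eq_mul, mul_one]
      exact (splits_iff_card_roots.1 hs)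
    · intro h hh
      obtain ⟨a, -, rfl⟩ := Multiset.mem_map.1 hh
      exact monic_X_sub_C _

theorem det_map {F : Type} [Field F] [Algebra k F] (f g : k[X]) :
    ((aeval (cmat f) g).det).map (algebraMap k F) =
      (aeval (cmat (f.map (algebraMap k F))) (g.map (algebraMap k F))).det := by
  have h1 : ((aeval (cmat f) g).det).map (algebraMap k F) =
      ((mapRingHom (algebraMap k F)).mapMatrix (aeval (cmat f) g)).det := by
    rw [← RingHom.map_det]
    rfl
  rw [h1]
  congr 1
  have h2 : (mapRingHom (algebraMap k F)).mapMatrix (cmat f) = cmat (f.map (algebraMap k F)) := by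
    ext i j
    rw [RingHom.mapMatrix_apply, Matrix.map_apply]
    fin_cases i <;> fin_cases j <;> simp [cmat]
  rw [aeval_def, aeval_def, hom_eval₂, h2, eval₂_map]
  congr 1
  refine RingHom.ext fun x => ?_
  show (mapRingHom (algebraMap k F)).mapMatrix (algebraMap k (Matrix (Fin 3) (Fin 3) k[X]) x) =
    algebraMap F (Matrix (Fin 3) (Fin 3) F[X]) (algebraMap k F x)
  ext i j
  rw [RingHom.mapMatrix_apply, Matrix.map_apply, Matrix.algebraMap_matrix_apply,
    Matrix.algebraMap_matrix_apply]
  split_ifs
  · simp [Polynomial.algebraMap_eq]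
  · simp

theorem det_monic {g : k[X]} (hg : g.Monic) (f : k[X]) :
    (aeval (cmat f) g).det.Monic ∧ (aeval (cmat f) g).det.natDegree = g.natDegree := by
  obtain ⟨h1, h2⟩ := det_split (k := AlgebraicClosure k)
    (hg.map (algebraMap k (AlgebraicClosure k))) (IsAlgClosed.splits _)
    (f.map (algebraMap k (AlgebraicClosure k)))
  rw [← det_map] at h1 h2
  rw [natDegree_map, natDegree_map] at h2
  exact ⟨monic_of_injective (algebraMap k (AlgebraicClosure k)).injective h1, h2⟩

end comp

section norm

variable {k K L : Type} [Field k] [Field K] [Field L] [Algebra k[X] K] [IsFractionRing k[X] K]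
  [Algebra k[X] L] [IsFractionRing k[X] L] [Algebra K L] {f : k[X]}

theorem leftMul_eq (hc : IsCover K L f) (hm : f.Monic) (hd : f.natDegree = 3) (g : k[X]) :
    Algebra.leftMulMatrix (bas (isGen hc hm hd)) (algebraMap k[X] L g) =
      (aeval (cmat f) g).map (algebraMap k[X] K) := by
  induction g using Polynomial.induction_on' with
  | add p q hp hq =>
    rw [map_add, map_add, hp, hq, map_add, Matrix.map_add _ (map_add _)]
  | monomial n a =>
    rw [← C_mul_X_pow_eq_monomial, map_mul, map_pow, map_mul, map_pow, mulMatrix]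
    have h1 : algebraMap k[X] L (C a) = algebraMap K L (algebraMap k[X] K (C a)) := by
      rw [hc, C_comp]
    have h2 : ∀ (A B : Matrix (Fin 3) (Fin 3) k[X]), (A * B).map (algebraMap k[X] K) =
        A.map (algebraMap k[X] K) * B.map (algebraMap k[X] K) := fun A B => Matrix.map_mul
    have h3 : ∀ (A : Matrix (Fin 3) (Fin 3) k[X]) (m : ℕ), (A ^ m).map (algebraMap k[X] K) =
        A.map (algebraMap k[X] K) ^ m := fun A m => map_pow (algebraMap k[X] K).mapMatrix A m
    rw [h1, AlgHom.commutes, map_mul, map_pow, aeval_X, aeval_C, h2, h3]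
    congr 1
    · ext i j
      rw [Matrix.algebraMap_matrix_apply, Matrix.map_apply, Matrix.algebraMap_matrix_apply]
      split_ifs
      · rfl
      · rw [map_zero]
    · congr 1
      ext i j
      rw [Matrix.map_apply]
      fin_cases i <;> fin_cases j <;> simp [cmat]

theorem nm_eq_det (hc : IsCover K L f) (hm : f.Monic) (hd : f.natDegree = 3) (g : k[X]) :
    nm K L g = (aeval (cmat f) g).det := by
  apply inj_frac K
  rw [nm_spec hc hm hd, Algebra.norm_eq_matrix_det (bas (isGen hc hm hd)), leftMul_eq hc hm hd]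
  exact ((algebraMap k[X] K).map_det _).symm

theorem nm_monic (hc : IsCover K L f) (hm : f.Monic) (hd : f.natDegree = 3) {g : k[X]}
    (hg : g.Monic) : (nm K L g).Monic ∧ (nm K L g).natDegree = g.natDegree := by
  rw [nm_eq_det hc hm hd]
  exact det_monic hg f

theorem nm_one' (hc : IsCover K L f) (hm : f.Monic) (hd : f.natDegree = 3) :
    nm K L (1 : k[X]) = 1 := by
  have := nm_C (K := K) (L := L) hc hm hd 1
  rwa [one_pow, C_1] at this

/-- The norm of a prime of degree one. -/
theorem nm_one (hc : IsCover K L f) (hm : f.Monic) (hd : f.natDegree = 3) {P Q : k[X]}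
    (h : One f P Q) : nm K L Q = P := by
  obtain ⟨h1, h2⟩ := nm_monic hc hm hd h.mQ
  obtain ⟨i, hi, ha⟩ := (dvd_prime_pow h.iP.prime 3).1 (nm_dvd (K := K) (L := L) hc hm hd h.dvd)
  have h3 := natDegree_eq_of_degree_eq (degree_eq_degree_of_associated ha)
  rw [h2, h.deg, natDegree_pow] at h3
  have h4 := h.iP.natDegree_pos
  have h5 : i = 1 := by
    have h6 : 1 * P.natDegree = i * P.natDegree := by rw [one_mul]; exact h3
    exact (Nat.eq_of_mul_eq_mul_right h4 h6).symm
  rw [h5, pow_one] at ha
  exact eq_of_monic_of_associated h1 h.mP ha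

theorem nm_zz (hc : IsCover K L f) (hm : f.Monic) (hd : f.natDegree = 3) {P Q : k[X]}
    (h : One f P Q) : nm K L (zz f P Q) = P ^ 2 := by
  have h1 := nm_comp (K := K) (L := L) hc hm hd P
  rw [h.zz_mul, nm_mul hc hm hd, nm_one hc hm hd h, pow_succ' P 2] at h1
  exact mul_left_cancel₀ h.iP.ne_zero h1

end norm

end Pool.Agent.H4.SL
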