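import Pool.Graph.R_pool_sql_team_seeded_64922ed1.X261.SM.Cls
import Pool.Agent.H4.SL.Apx
import Pool.Agent.H4.SL.Nm
import Pool.Agent.H4.SA.Adm

/-!
# The colouring attached to an element of the cubic field
-/

set_option autoImplicit false
set_option linter.all false

open Polynomial IsDedekindDomain WithZero
open scoped Classical

namespace Pool.Agent.H4.SL

open Pool.Agent.X261.TW Pool.Agent.X261.TD Pool.Agent.X261.SM
open Pool.Agent.TH943.HJ (primes mem_primes)
open Pool.Agent.Y228.FT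
open Pool.Agent.Y160.SE (IsPw)
open Pool.Agent.H4.SA
open Pool.Agent.H341R2.Sharp (lam)
open Pool.Agent.Y164.PS (lam_mul_left lam_one_left)

section val

variable {k L : Type} [Field k] [Field L] [Algebra k[X] L] [IsFractionRing k[X] L]

theorem val_alg {Q : k[X]} (hQ : Irreducible Q) (g : k[X]) :
    (vpr hQ.prime).valuation L (algebraMap k[X] L g) = (vpr hQ.prime).intValuation g :=
  (vpr hQ.prime).valuation_of_algebraMap g

theorem int_val {Q g : k[X]} (hQ : Irreducible Q) (hg : g ≠ 0) :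
    (vpr hQ.prime).intValuation g = exp (-(multiplicity Q g : ℤ)) := by
  obtain ⟨c, hc, hnd⟩ := (fin_mult hQ hg).exists_eq_pow_mul_and_not_dvd
  conv_lhs => rw [hc]
  rw [map_mul, map_pow, vpr_self, (vpr_eq_one hQ.prime c).2 hnd, mul_one, ← exp_nsmul]
  congr 1
  rw [nsmul_eq_mul]
  ring

theorem isSquare_val {Q g : k[X]} (hQ : Irreducible Q) (hg : g ≠ 0) :
    IsSquare ((vpr hQ.prime).valuation L (algebraMap k[X] L g)) ↔ Even (multiplicity Q g) := by
  rw [val_alg hQ, int_val hQ hg]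
  constructor
  · rintro ⟨y, hy⟩
    have h1 : IsPw 2 (exp (-(multiplicity Q g : ℤ))) := ⟨y, by rw [hy, pow_two]⟩
    exact even_iff_two_dvd.2 (isPw_exp two_ne_zero h1)
  · rintro ⟨m, hm⟩
    refine ⟨exp (-(m : ℤ)), ?_⟩
    rw [← exp_add, hm]
    congr 1
    push_cast
    ring

end val

section main

variable {k K L : Type} [Field k] [Fintype k] [DecidableEq k] [Field K] [Field L]
  [Algebra k[X] K] [IsFractionRing k[X] K]
  [Algebra k[X] L] [IsFractionRing k[X] L] [Algebra K L] {f : k[X]} {u : k} {S : Finset k[X]}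

/-- The local conditions at `P` for `h`. -/
def Cnd (L : Type) [Field L] [Algebra k[X] L] [IsFractionRing k[X] L] (f D P h : k[X]) : Prop :=
  (∀ (Q : k[X]) (hQ : Irreducible Q), Q ∣ P.comp f →
      Apx (vpr hQ.prime) (algebraMap k[X] L h) 1) ∨
    ∃ p : k[X], P ∣ f.comp p - X ∧ ∀ (Q : k[X]) (hQ : Irreducible Q), Q ∣ P.comp f →
      (Q ∣ X - p.comp f → Apx (vpr hQ.prime) (algebraMap k[X] L h)
        (algebraMap k[X] L (derivative f))) ∧
      (¬ Q ∣ X - p.comp f → Apx (vpr hQ.prime) (algebraMap k[X] L h)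
        (algebraMap k[X] L (D.comp f) * (algebraMap k[X] L (p.comp f - X))))

/-- The primes which contain `x - p(t)`. -/
theorem eq_of_dvd (hf : Cub f) {P Q Q1 p : k[X]} (h1 : One f P Q1) (hp : Q1 ∣ p.comp f - X)
    (mQ : Q.Monic) (iQ : Irreducible Q) (hQ : Q ∣ P.comp f) (hd : Q ∣ X - p.comp f) : Q = Q1 := by
  have h2 : Q ∣ (Q.comp p).comp f := by
    rw [comp_assoc]
    have h3 : Q ∣ Q.comp (p.comp f) - Q.comp X := by
      have h4 : Q ∣ p.comp f - X := by
        have := (dvd_neg (a := Q) (b := X - p.comp f)).2 hd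
        rwa [neg_sub] at this
      exact h4.trans (comp_sub_dvd Q)
    rw [comp_X] at h3
    have := dvd_add h3 (dvd_refl Q)
    rwa [sub_add_cancel] at this
  have h3 : P ∣ Q.comp p := by
    by_contra hnd
    obtain ⟨a, b, hab⟩ := (h1.iP.coprime_iff_not_dvd).2 hnd
    have h4 := congrArg (fun g : k[X] => g.comp f) hab
    simp only [add_comp, mul_comp, one_comp] at h4
    exact iQ.not_isUnit (isUnit_of_dvd_one (h4 ▸ dvd_add (hQ.mul_left _) (h2.mul_left _)))
  have h4 : Q1 ∣ Q := (h1.dvd_iff hp Q).2 h3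
  exact (eq_of_monic_of_associated h1.mQ mQ (h1.iQ.associated_of_dvd iQ h4)).symm

theorem mult_comp (hf : Cub f) {P Q : k[X]} (hP : Gd f P) (iQ : Irreducible Q)
    (hQ : Q ∣ P.comp f) : multiplicity Q (P.comp f) = 1 := by
  refine multiplicity_eq_of_dvd_of_not_dvd (by rw [pow_one]; exact hQ) ?_
  intro h
  exact iQ.not_isUnit (hP.sq Q (by rw [← pow_two]; exact h))

/-- The multiplicities of the complementary factor. -/
theorem mult_zz (hf : Cub f) {P Q Q1 : k[X]} (hP : Gd f P) (h1 : One f P Q1) (mQ : Q.Monic)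
    (iQ : Irreducible Q) (hQ : Q ∣ P.comp f) :
    multiplicity Q (zz f P Q1) = if Q = Q1 then 0 else 1 := by
  have h2 := mult_comp hf hP iQ hQ
  rw [h1.zz_mul, mult_mul iQ h1.iQ.ne_zero (h1.zz_ne hf)] at h2
  split_ifs with h
  · subst h
    rw [mult_one iQ] at h2
    omega
  · have h3 : ¬ Q ∣ Q1 := fun hd => h (eq_of_monic_of_associated mQ h1.mQ
      (iQ.associated_of_dvd h1.iQ hd))
    rw [mult_zero h3] at h2
    omega

/-- The choice of the colour at `P`. -/
theorem exists_col (hf : Cub f) {D P h : k[X]} (hP : Gd f P) (h0 : h ≠ 0) (hD : D ≠ 0)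
    (hPD : ∃ D', D = P * D' ∧ ¬ P ∣ D') (hc : Cnd L f D P h) :
    ∃ v : k[X], (v = 1 ∨ One f P v) ∧
      (∀ Q : k[X], Q.Monic → Irreducible Q → Q ∣ P.comp f →
        Even (multiplicity Q (h * zz f P v))) ∧
      (v = 1 → ∀ (Q : k[X]) (hQ : Irreducible Q), Q ∣ P.comp f →
        Apx (vpr hQ.prime) (algebraMap k[X] L h) 1) ∧
      (v ≠ 1 → ∃ p : k[X], v ∣ p.comp f - X ∧ 
        ∀ (Q : k[X]) (hQ : Irreducible Q), Q.Monic → Q ∣ P.comp f →
        (Q = v → Apx (vpr hQ.prime) (algebraMap k[X] L h) (algebraMap k[X] L (derivative f))) ∧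
        (Q ≠ v → Apx (vpr hQ.prime) (algebraMap k[X] L h)
          (algebraMap k[X] L (D.comp f) * (algebraMap k[X] L (p.comp f - X))))) := by
  rcases hc with hc | ⟨p, hp, hc⟩
  · refine ⟨1, Or.inl rfl, fun Q mQ iQ hQ => ?_, fun _ => hc, fun h => absurd rfl h⟩
    rw [zz_one, mul_one]
    refine (isSquare_val (L := L) iQ h0).1 ((hc Q iQ hQ).isSquare.2 ?_)
    rw [map_one]
    exact ⟨1, (mul_one 1).symm⟩
  · obtain ⟨Q1, h1, hQ1⟩ := exists_one hP.mP hP.iP hp
    have hiff : ∀ Q : k[X], Q.Monic → Irreducible Q → Q ∣ P.comp f →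
        (Q ∣ X - p.comp f ↔ Q = Q1) := by
      intro Q mQ iQ hQ
      constructor
      · exact fun h => eq_of_dvd hf h1 hQ1 mQ iQ hQ h
      · rintro rfl
        have := (dvd_neg (a := Q) (b := p.comp f - X)).2 hQ1
        rwa [neg_sub] at this
    have key : ∀ (Q : k[X]) (hQ : Irreducible Q), Q.Monic → Q ∣ P.comp f →
        (Q = Q1 → Apx (vpr hQ.prime) (algebraMap k[X] L h) (algebraMap k[X] L (derivative f))) ∧
        (Q ≠ Q1 → Apx (vpr hQ.prime) (algebraMap k[X] L h)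
          (algebraMap k[X] L (D.comp f) * (algebraMap k[X] L (p.comp f - X)))) := by
      intro Q iQ mQ hQ
      exact ⟨fun h => (hc Q iQ hQ).1 ((hiff Q mQ iQ hQ).2 h),
        fun h => (hc Q iQ hQ).2 fun h' => h ((hiff Q mQ iQ hQ).1 h')⟩
    refine ⟨Q1, Or.inr h1, fun Q mQ iQ hQ => ?_, fun h => absurd h h1.ne_one,
      fun _ => ⟨p, hQ1, key⟩⟩
    rw [mult_mul iQ h0 (h1.zz_ne hf), mult_zz hf hP h1 mQ iQ hQ]
    obtain ⟨k1, k2⟩ := key Q iQ mQ hQ
    split_ifs with he
    · rw [add_zero, ← isSquare_val (L := L) iQ h0, (k1 he).isSquare, val_alg iQ,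
        (vpr_eq_one iQ.prime _).2 (hP.not_deriv iQ hQ)]
      exact ⟨1, (mul_one 1).symm⟩
    · obtain ⟨D', hD', hnd⟩ := hPD
      have hD'0 : D' ≠ 0 := by
        rintro rfl
        exact hnd (dvd_zero P)
      have hn1 : ¬ Q ∣ D'.comp f := by
        intro hd
        obtain ⟨a, b, hab⟩ := (hP.iP.coprime_iff_not_dvd).2 hnd
        have h4 := congrArg (fun g : k[X] => g.comp f) hab
        simp only [add_comp, mul_comp, one_comp] at h4
        exact iQ.not_isUnit (isUnit_of_dvd_one (h4 ▸ dvd_add (hQ.mul_left _) (hd.mul_left _)))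
      have hn2 : ¬ Q ∣ p.comp f - X := by
        intro hd
        apply he
        apply (hiff Q mQ iQ hQ).1
        have := (dvd_neg (a := Q) (b := p.comp f - X)).2 hd
        rwa [neg_sub] at this
      have hn0 : p.comp f - X ≠ 0 := fun h' => hn2 (h' ▸ dvd_zero Q)
      have hc0 : D.comp f ≠ 0 := comp_ne hf.deg hD
      have hodd : ¬ Even (multiplicity Q h) := by
        rw [← isSquare_val (L := L) iQ h0, (k2 he).isSquare, ← map_mul,
          isSquare_val iQ (mul_ne_zero hc0 hn0), mult_mul iQ hc0 hn0, mult_zero hn2, add_zero, hD',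
          mul_comp, mult_mul iQ (comp_ne hf.deg hP.iP.ne_zero) (comp_ne hf.deg hD'0),
          mult_comp hf hP iQ hQ, mult_zero hn1]
        decide
      exact (Nat.not_even_iff_odd.1 hodd).add_odd odd_one

/-- An element with even multiplicities and a square norm. -/
theorem square_of' (hc : IsCover K L f) (hf : Cub f) {h : k[X]} (h0 : h ≠ 0)
    (hev : ∀ Q : k[X], Q.Monic → Irreducible Q → Even (multiplicity Q h)) {a b : k[X]}
    (hb : b ≠ 0) (hN : nm K L h * b ^ 2 = a ^ 2) : ∃ G : k[X], h = G ^ 2 := by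
  have hm := hf.mon
  have hd := hf.deg
  obtain ⟨c, H, hcc, hH, e⟩ := rep_set (A := ∅) h0 (fun R hR => absurd hR (Finset.notMem_empty R))
    (fun Q mQ iQ => by simp [hev Q mQ iQ])
  rw [Finset.prod_empty, one_mul] at e
  have hNH := nm_ne (K := K) (L := L) hc hm hd hH
  have e3 : C (c ^ 3) * (nm K L H * b) ^ 2 = a ^ 2 := by
    rw [← hN, e, nm_mul hc hm hd, nm_C hc hm hd, pow_two H, nm_mul hc hm hd]
    ring
  have h3 := congrArg leadingCoeff e3
  rw [leadingCoeff_mul, leadingCoeff_C, leadingCoeff_pow, leadingCoeff_pow] at h3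
  have hl : (nm K L H * b).leadingCoeff ≠ 0 := leadingCoeff_ne_zero.2 (mul_ne_zero hNH hb)
  set w := a.leadingCoeff / (c * (nm K L H * b).leadingCoeff) with hw
  have hvw : c = w ^ 2 := by
    rw [hw, div_pow, ← h3]
    field_simp
  refine ⟨C w * H, ?_⟩
  rw [e, mul_pow, ← C_pow, ← hvw]

omit [Fintype k] [DecidableEq k] in
theorem prod_ne (hf : Cub f) {g : S → k[X]} (hg : ∀ x, g x ≠ 0) (T : Finset S) :
    ∏ x ∈ T, g x ≠ 0 := Finset.prod_ne_zero_iff.2 fun x _ => hg x

theorem ndvd_prod {Q : k[X]} (iQ : Irreducible Q) {g : S → k[X]} {T : Finset S}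
    (h : ∀ x ∈ T, ¬ Q ∣ g x) : ¬ Q ∣ ∏ x ∈ T, g x := by
  intro hd
  obtain ⟨x, hx, hdx⟩ := (iQ.prime.dvd_finset_prod_iff _).1 hd
  exact h x hx hdx

/-- The product of the primes in `S`. -/
theorem dvd_comp_prod {Q : k[X]} (iQ : Irreducible Q) (hu : u ≠ 0)
    (h : Q ∣ (C u * ∏ P ∈ S, P).comp f) : ∃ P ∈ S, Q ∣ P.comp f := by
  rw [mul_comp, C_comp, prod_comp] at h
  rcases iQ.prime.dvd_or_dvd h with h1 | h1
  · exact absurd (isUnit_of_dvd_unit h1 (isUnit_C.2 (isUnit_iff_ne_zero.2 hu))) iQ.not_isUnit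
  · exact (iQ.prime.dvd_finset_prod_iff _).1 h1

/-- The element is, up to squares, the product of the complementary factors. -/
theorem exists_colouring (hc : IsCover K L f) (hf : Cub f) (hu : u ≠ 0) (hS : ∀ P ∈ S, Gd f P)
    {h : k[X]} (h0 : h ≠ 0) (hev : EvenOff ((C u * ∏ P ∈ S, P).comp f) h)
    {a b : k[X]} (hb : b ≠ 0) (hN : nm K L h * b ^ 2 = a ^ 2)
    (hcnd : ∀ P ∈ S, Cnd L f (C u * ∏ P ∈ S, P) P h) :
    ∃ v : S → k[X], (∀ x : S, v x = 1 ∨ One f x.1 (v x)) ∧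
      (∃ G : k[X], h * ∏ x : S, zz f x.1 (v x) = G ^ 2) ∧
      (∀ x : S, v x = 1 → ∀ (Q : k[X]) (hQ : Irreducible Q), Q ∣ x.1.comp f →
        Apx (vpr hQ.prime) (algebraMap k[X] L h) 1) ∧
      (∀ x : S, v x ≠ 1 → ∃ p : k[X], v x ∣ p.comp f - X ∧
        ∀ (Q : k[X]) (hQ : Irreducible Q), Q.Monic → Q ∣ x.1.comp f →
        (Q = v x → Apx (vpr hQ.prime) (algebraMap k[X] L h) (algebraMap k[X] L (derivative f))) ∧
        (Q ≠ v x → Apx (vpr hQ.prime) (algebraMap k[X] L h)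
          (algebraMap k[X] L ((C u * ∏ P ∈ S, P).comp f) *
            (algebraMap k[X] L (p.comp f - X))))) := by
  have hcu : (C u : k[X]) ≠ 0 := C_ne_zero.2 hu
  have hD : (C u * ∏ P ∈ S, P : k[X]) ≠ 0 :=
    mul_ne_zero hcu (Finset.prod_ne_zero_iff.2 fun P hP => (hS P hP).iP.ne_zero)
  have hPD : ∀ P ∈ S, ∃ D', (C u * ∏ P ∈ S, P : k[X]) = P * D' ∧ ¬ P ∣ D' := by
    intro P hP
    refine ⟨C u * ∏ R ∈ S.erase P, R, ?_, ?_⟩
    · rw [← Finset.mul_prod_erase S _ hP]
      ring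
    · intro hd
      rcases (hS P hP).iP.prime.dvd_or_dvd hd with h1 | h1
      · exact (hS P hP).iP.not_isUnit (isUnit_of_dvd_unit h1 (isUnit_C.2 (isUnit_iff_ne_zero.2 hu)))
      · obtain ⟨R, hR, hdR⟩ := ((hS P hP).iP.prime.dvd_finset_prod_iff _).1 h1
        rw [Finset.mem_erase] at hR
        exact lam_primes (hS P hP) (hS R hR.2) (Ne.symm hR.1) hdR
  choose! v hv using fun (x : S) => exists_col (L := L) hf (hS x.1 x.2) h0 hD (hPD x.1 x.2)
    (hcnd x.1 x.2)
  have hv1 : ∀ x : S, v x ∈ VV f x.1 := fun x => (mem_VV hf (hS x.1 x.2)).2 (hv x).1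
  have hz0 : ∀ x : S, zz f x.1 (v x) ≠ 0 := fun x => zz_ne_zero hf (hS x.1 x.2) (hv1 x)
  refine ⟨v, fun x => (hv x).1, ?_, fun x => (hv x).2.2.1, fun x => (hv x).2.2.2⟩
  have hM0 : ∏ x : S, zz f x.1 (v x) ≠ 0 := prod_ne hf hz0 _
  -- the norm
  have hnM : ∃ r : k[X], nm K L (∏ x : S, zz f x.1 (v x)) = r ^ 2 := by
    have key : ∀ T : Finset S, ∃ r : k[X], nm K L (∏ x ∈ T, zz f x.1 (v x)) = r ^ 2 := by
      intro T
      induction T using Finset.induction_on with
      | empty => exact ⟨1, by rw [Finset.prod_empty, nm_one' hc hf.mon hf.deg, one_pow]⟩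
      | insert x T hx ih =>
        obtain ⟨r, hr⟩ := ih
        rw [Finset.prod_insert hx, nm_mul hc hf.mon hf.deg, hr]
        rcases (hv x).1 with h1 | h1
        · exact ⟨r, by rw [h1, zz_one, nm_one' hc hf.mon hf.deg, one_mul]⟩
        · exact ⟨x.1 * r, by rw [nm_zz hc hf.mon hf.deg h1, mul_pow]⟩
    exact key _
  obtain ⟨r, hr⟩ := hnM
  refine square_of' hc hf (mul_ne_zero h0 hM0) ?_ hb (a := a * r) ?_
  · intro Q mQ iQ
    by_cases hQ : Q ∣ (C u * ∏ P ∈ S, P).comp f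
    · obtain ⟨P, hP, hQP⟩ := dvd_comp_prod iQ hu hQ
      have e : ∏ x : S, zz f x.1 (v x) = zz f P (v ⟨P, hP⟩) *
          ∏ x ∈ Finset.univ.erase ⟨P, hP⟩, zz f x.1 (v x) :=
        (Finset.mul_prod_erase Finset.univ (fun x : S => zz f x.1 (v x))
          (Finset.mem_univ (⟨P, hP⟩ : S))).symm
      have hnd : ¬ Q ∣ ∏ x ∈ Finset.univ.erase (⟨P, hP⟩ : S), zz f x.1 (v x) := by
        refine ndvd_prod iQ fun x hx hd => ?_
        have hne : P ≠ x.1 := by
          intro h'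
          exact (Finset.ne_of_mem_erase hx) (Subtype.ext h'.symm)
        exact not_dvd_of_ne ⟨(hS P hP).mP, (hS P hP).iP⟩ ⟨(hS x.1 x.2).mP, (hS x.1 x.2).iP⟩ hne iQ hQP
          (hd.trans (zz_dvd hf (hS x.1 x.2) (hv1 x)))
      rw [e, ← mul_assoc, mult_mul iQ (mul_ne_zero h0 (hz0 ⟨P, hP⟩)) (prod_ne hf hz0 _),
        mult_zero hnd, add_zero]
      exact (hv ⟨P, hP⟩).2.1 Q mQ iQ hQP
    · rw [mult_mul iQ h0 hM0, mult_zero (ndvd_prod iQ fun x _ hd => ?_), add_zero]
      · exact hev.even h0 iQ hQ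
      · apply hQ
        have h1 := hd.trans (zz_dvd hf (hS x.1 x.2) (hv1 x))
        rw [mul_comp, prod_comp]
        exact (h1.trans (Finset.dvd_prod_of_mem (fun P : k[X] => P.comp f) x.2)).mul_left _
  · rw [nm_mul hc hf.mon hf.deg, hr, mul_pow, ← hN]
    ring

/-- The signs of the colouring. -/
theorem adm_of_colouring (hf : Cub f) (hu : u ≠ 0) (hS : ∀ P ∈ S, Gd f P) {h G : k[X]}
    (h0 : h ≠ 0) {v : S → k[X]} (hv : ∀ x : S, v x = 1 ∨ One f x.1 (v x))
    (hG : h * ∏ x : S, zz f x.1 (v x) = G ^ 2)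
    (hv1 : ∀ x : S, v x = 1 → ∀ (Q : k[X]) (hQ : Irreducible Q), Q ∣ x.1.comp f →
        Apx (vpr hQ.prime) (algebraMap k[X] L h) 1)
    (hv2 : ∀ x : S, v x ≠ 1 → ∃ p : k[X], v x ∣ p.comp f - X ∧
        ∀ (Q : k[X]) (hQ : Irreducible Q), Q.Monic → Q ∣ x.1.comp f →
        (Q = v x → Apx (vpr hQ.prime) (algebraMap k[X] L h) (algebraMap k[X] L (derivative f))) ∧
        (Q ≠ v x → Apx (vpr hQ.prime) (algebraMap k[X] L h)
          (algebraMap k[X] L ((C u * ∏ P ∈ S, P).comp f) *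
            (algebraMap k[X] L (p.comp f - X))))) : v ∈ Adm f u S := by
  have hcu : (C u : k[X]) ≠ 0 := C_ne_zero.2 hu
  have hmem : ∀ x : S, v x ∈ VV f x.1 := fun x => (mem_VV hf (hS x.1 x.2)).2 (hv x)
  have hz0 : ∀ x : S, zz f x.1 (v x) ≠ 0 := fun x => zz_ne_zero hf (hS x.1 x.2) (hmem x)
  set M := ∏ x : S, zz f x.1 (v x) with hMdef
  have hM0 : M ≠ 0 := prod_ne hf hz0 _
  have hG0 : G ≠ 0 := by
    rintro rfl
    rw [zero_pow two_ne_zero] at hG
    exact mul_ne_zero h0 hM0 hG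
  have hL : ∀ {g : k[X]}, g ≠ 0 → algebraMap k[X] L g ≠ 0 := fun hg =>
    (map_ne_zero_iff _ (inj_frac L)).2 hg
  -- from `h` to `M`
  have tr : ∀ {Q : k[X]} (iQ : Irreducible Q) {b : L}, Apx (vpr iQ.prime) (algebraMap k[X] L h) b →
      Apx (vpr iQ.prime) (algebraMap k[X] L M) b := by
    intro Q iQ b hb
    have e : algebraMap k[X] L M = algebraMap k[X] L h *
        (algebraMap k[X] L G / algebraMap k[X] L h) ^ 2 := by
      have := hL h0
      have e1 := congrArg (algebraMap k[X] L) hG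
      rw [map_mul, map_pow] at e1
      rw [div_pow, ← e1]
      field_simp
    rw [e]
    exact hb.mul_sq_left (div_ne_zero (hL hG0) (hL h0))
  rw [mem_Adm]
  refine ⟨hmem, fun x ω hω => ?_⟩
  have hP := hS x.1 x.2
  rcases (mem_VV hf hP).1 hω with rfl | hQ
  · exact Lam_one
  have hne : ∀ y ∈ Finset.univ.erase x, x.1 ≠ y.1 := fun y hy h' =>
    (Finset.ne_of_mem_erase hy) (Subtype.ext h'.symm)
  have hnd' : ∀ y ∈ Finset.univ.erase x, ¬ ω ∣ zz f y.1 (v y) := fun y hy =>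
    hQ.ndvd_zz hf (hS y.1 y.2) (hne y hy) (hmem y)
  set M' := ∏ y ∈ Finset.univ.erase x, zz f y.1 (v y) with hM'def
  have hMM' : M = zz f x.1 (v x) * M' :=
    (Finset.mul_prod_erase Finset.univ (fun x : S => zz f x.1 (v x)) (Finset.mem_univ x)).symm
  have hM'n : ¬ ω ∣ M' := ndvd_prod hQ.iQ hnd'
  have hM'0 : M' ≠ 0 := prod_ne hf hz0 _
  have hlamM' : lam M' ω = ∏ y ∈ Finset.univ.erase x, lam (zz f y.1 (v y)) ω :=
    lam_prod_left _ _ (fun y _ => hz0 y) ω
  have lam1 : lam (1 : k[X]) ω = 1 := lam_one_left ω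
  have ofApx : ∀ {α β : k[X]}, ¬ ω ∣ α → ¬ ω ∣ β → 
      Apx (vpr hQ.iQ.prime) (algebraMap k[X] L α) (algebraMap k[X] L β) → lam α ω = lam β ω := by
    intro α β hα hβ hap
    obtain ⟨c, hc⟩ := hap.exists_mod (fun h' => hα (Ideal.mem_span_singleton.1 h'))
      (fun h' => hβ (Ideal.mem_span_singleton.1 h'))
    exact lam_congr_sq hf.rc hQ.mQ hQ.iQ (Ideal.mem_span_singleton.1 hc) hα
  by_cases hvx : v x = 1
  · rw [Lam_lin hQ.ne_one (Or.inl hvx), ← hlamM', ← lam1]
    refine ofApx hM'n (fun h' => hQ.iQ.not_isUnit (isUnit_of_dvd_one h')) ?_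
    have h1 := tr hQ.iQ (hv1 x hvx ω hQ.iQ hQ.dvd)
    rw [hMM', hvx, zz_one, one_mul] at h1
    rw [map_one]
    exact h1
  · have hv' : One f x.1 (v x) := (hv x).resolve_left hvx
    obtain ⟨p, hp, hcond⟩ := hv2 x hvx
    obtain ⟨k1, k2⟩ := hcond ω hQ.iQ hQ.mQ hQ.dvd
    by_cases he : ω = v x
    · -- the diagonal
      rw [Lam_lin hQ.ne_one (Or.inr he.symm), ← hlamM']
      have hzn : ¬ ω ∣ zz f x.1 (v x) := by
        intro hd
        have h1 := mult_zz hf hP hv' hQ.mQ hQ.iQ hQ.dvd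
        rw [if_pos he] at h1
        exact (multiplicity_eq_zero.1 h1) hd
      have hMn : ¬ ω ∣ M := by
        rw [hMM']
        intro hd
        rcases hQ.iQ.prime.dvd_or_dvd hd with h1 | h1
        · exact hzn h1
        · exact hM'n h1
      have h1 := ofApx hMn (hP.not_deriv hQ.iQ hQ.dvd) (tr hQ.iQ (k1 he))
      rw [hMM', lam_mul_left (hz0 x) hM'0] at h1
      have h2 : lam (zz f x.1 (v x)) ω = lam (derivative f) ω := by
        rw [he]
        exact lam_compl hf hP hv' hv'.zz_mul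
      rw [h2] at h1
      have h3 := lam_self_mul hQ.iQ (hP.not_deriv hQ.iQ hQ.dvd)
      have h4 : lam (derivative f) ω ≠ 0 := lam_ne hQ.iQ (hP.not_deriv hQ.iQ hQ.dvd)
      have h5 : lam (derivative f) ω * lam M' ω = lam (derivative f) ω * 1 := by rw [h1, mul_one]
      exact mul_left_cancel₀ h4 h5
    · -- different primes
      have hX : v x ≠ 1 ∧ ω ≠ 1 ∧ v x ≠ ω := ⟨hvx, hQ.ne_one, fun h' => he h'.symm⟩
      rw [Lam_X hX, Finset.prod_mul_distrib, ← hlamM']
      set D' := ∏ y ∈ Finset.univ.erase x, (y.1 : k[X]) with hD'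
      have hD'0 : ∀ y : S, (y.1 : k[X]) ≠ 0 := fun y => (hS y.1 y.2).iP.ne_zero
      have hlamD' : lam D' x.1 = ∏ y ∈ Finset.univ.erase x, lam y.1 x.1 :=
        lam_prod_left _ _ (fun y _ => hD'0 y) x.1
      have hD'n : D' ≠ 0 := Finset.prod_ne_zero_iff.2 fun y _ => hD'0 y
      rw [← hlamD']
      have hprod : (∏ P ∈ S, P : k[X]) = x.1 * D' := by
        rw [← Finset.prod_coe_sort, hD']
        exact (Finset.mul_prod_erase Finset.univ (fun y : S => (y.1 : k[X]))
          (Finset.mem_univ x)).symm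
      have hap := tr hQ.iQ (k2 he)
      have hap2 := hap.mul_left (algebraMap k[X] L (v x))
      rw [← map_mul, ← map_mul, ← map_mul] at hap2
      have e1 : v x * M = x.1.comp f * M' := by
        rw [hMM', hv'.zz_mul]
        ring
      have e2 : v x * ((C u * ∏ P ∈ S, P).comp f * (p.comp f - X)) =
          x.1.comp f * (v x * (C u * D').comp f * (p.comp f - X)) := by
        rw [hprod]
        simp only [mul_comp, C_comp]
        ring
      rw [e1, e2] at hap2
      have hPf0 : x.1.comp f ≠ 0 := comp_ne hf.deg hP.iP.ne_zero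
      have hap3 := hap2.mul_left (algebraMap k[X] L (x.1.comp f))⁻¹
      rw [map_mul, map_mul (algebraMap k[X] L) (x.1.comp f)
        (v x * (C u * D').comp f * (p.comp f - X)), inv_mul_cancel_left₀ (hL hPf0),
        inv_mul_cancel_left₀ (hL hPf0)] at hap3
      -- units
      have n1 : ¬ ω ∣ v x := fun hd => he (eq_of_monic_of_associated hQ.mQ hv'.mQ
        (hQ.iQ.associated_of_dvd hv'.iQ hd))
      have n2 : ¬ ω ∣ (C u * D').comp f := by
        rw [hQ.ker]
        intro hd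
        rcases hP.iP.prime.dvd_or_dvd hd with h1 | h1
        · exact hP.iP.not_isUnit (isUnit_of_dvd_unit h1 (isUnit_C.2 (isUnit_iff_ne_zero.2 hu)))
        · obtain ⟨y, hy, hdy⟩ := (hP.iP.prime.dvd_finset_prod_iff _).1 h1
          exact lam_primes hP (hS y.1 y.2) (hne y hy) hdy
      have hrp : x.1 ∣ rh f (v x) - p := hv'.rho_unique hv'.rh_spec hp
      have n3 : ¬ ω ∣ p.comp f - X := by
        intro hd
        exact hv'.rho_ne hQ hX.2.2 hp hd (by rw [sub_self]; exact dvd_zero _)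
      have n12 : ¬ ω ∣ v x * (C u * D').comp f * (p.comp f - X) := by
        intro hd
        rcases hQ.iQ.prime.dvd_or_dvd hd with h1 | h1
        · rcases hQ.iQ.prime.dvd_or_dvd h1 with h1 | h1
          · exact n1 h1
          · exact n2 h1
        · exact n3 h1
      have h1 := ofApx hM'n n12 hap3
      have z1 : v x ≠ 0 := hv'.iQ.ne_zero
      have z2 : (C u * D').comp f ≠ 0 := fun h' => n2 (h' ▸ dvd_zero _)
      have z3 : p.comp f - X ≠ 0 := fun h' => n3 (h' ▸ dvd_zero _)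
      rw [lam_mul_left (mul_ne_zero z1 z2) z3, lam_mul_left z1 z2, hQ.lam_comp hf.rc,
        lam_mul_left hcu hD'n] at h1
      have h2 : lam (p.comp f - X) ω = lam (rh f (v x) - rh f ω) x.1 := by
        rw [← hQ.lam_comp hf.rc]
        refine lam_congr hf.rc hQ.mQ hQ.iQ ?_
        have h3 := (hQ.ker _).2 hrp
        have h4 := hQ.rh_spec
        rw [sub_comp] at h3
        have e3 : p.comp f - X - (rh f (v x) - rh f ω).comp f =
            ((rh f ω).comp f - X) - ((rh f (v x)).comp f - p.comp f) := by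
          rw [sub_comp]
          ring
        rw [e3]
        exact dvd_sub h4 h3
      have s1 := lam_self_mul hQ.iQ hM'n
      rw [h2] at h1
      unfold Pool.Agent.H4.SA.eta
      have e4 : lam (C u) x.1 * (lam (v x) ω * lam (rh f (v x) - rh f ω) x.1) *
          (lam M' ω * lam D' x.1) = lam M' ω * (lam (v x) ω * (lam (C u) x.1 * lam D' x.1) *
            lam (rh f (v x) - rh f ω) x.1) := by ring
      rw [e4, ← h1]
      exact s1

end main

end Pool.Agent.H4.SL
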