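import Pool.Agent.H4.SL.Apx

/-!
# The local conditions at a prime which divides the twist
-/

set_option autoImplicit false
set_option linter.all false

open Polynomial IsDedekindDomain WeierstrassCurve WeierstrassCurve.Affine WithZero
open scoped Classical

namespace Pool.Agent.H4.SL

open Pool.Agent.TH115.GD

section loc

variable {k K N R : Type} [Field k] [Field K] [Algebra k[X] K] [IsFractionRing k[X] K]
  [Field N] [Algebra K N] [Algebra k[X] N] [IsScalarTower k[X] K N]
  [Algebra N (Sep K)] [IsScalarTower K N (Sep K)]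
  [CommRing R] [IsDedekindDomain R] [Algebra R N] [IsFractionRing R N]
  [Algebra k[X] R] [IsScalarTower k[X] R N] [Algebra.IsIntegral k[X] R]
  [Module.IsTorsionFree k[X] R]

/-- The local conditions. -/
theorem locAt {a2 a4 a6 D : k[X]} {a b c : Sep K} {θ z : N} {θB : R}
    (hθB : algebraMap R N θB = θ)
    (hθ : algebraMap N (Sep K) (algebraMap K N (algebraMap k[X] K D) * θ) = a)
    (hC : IsC ((crvC (algebraMap k[X] K (D * a2)) (algebraMap k[X] K (D ^ 2 * a4))
      (algebraMap k[X] K (D ^ 3 * a6))).baseChange (Sep K)).toAffine a b c)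
    (hθ0 : cub (crvC (algebraMap k[X] K a2) (algebraMap k[X] K a4) (algebraMap k[X] K a6)) θ = 0)
    {f : (Sep K ≃ₐ[K] Sep K) → Pt (crvC (algebraMap k[X] K (D * a2))
      (algebraMap k[X] K (D ^ 2 * a4)) (algebraMap k[X] K (D ^ 3 * a6))) (Sep K)}
    (hf : IsCoc _ f) (hf2 : ∀ σ, f σ + f σ = 0)
    (v : HeightOneSpectrum k[X])
    (hloc : LocTriv _ (Comp k[X] K v) (Sep (Comp k[X] K v)) f) {t : Sep K} (ht : t ≠ 0)
    (hz : t ^ 2 = algebraMap N (Sep K) z) (hk : ∀ σ : Sep K ≃ₐ[K] Sep K, σ a = a →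
      σ t = sC a (f σ) * t)
    (hne : ∃ 𝔓 : HeightOneSpectrum R, 𝔓.under k[X] = v)
    (hD : ∀ 𝔓 : HeightOneSpectrum R, 𝔓.under k[X] = v →
      𝔓.valuation N (algebraMap K N (algebraMap k[X] K D)) = exp (-1 : ℤ) ∧
      𝔓.valuation N (cub' (crvC (algebraMap k[X] K a2) (algebraMap k[X] K a4)
        (algebraMap k[X] K a6)) θ) = 1) :
    (∀ 𝔓 : HeightOneSpectrum R, 𝔓.under k[X] = v → Apx 𝔓 z 1) ∨
      ∃ p : k[X], p ^ 3 + a2 * p ^ 2 + a4 * p + a6 ∈ v.asIdeal ∧
        ∀ 𝔓 : HeightOneSpectrum R, 𝔓.under k[X] = v →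
        (θB - algebraMap k[X] R p ∈ 𝔓.asIdeal → Apx 𝔓 z (cub' (crvC (algebraMap k[X] K a2)
          (algebraMap k[X] K a4) (algebraMap k[X] K a6)) θ)) ∧
        (θB - algebraMap k[X] R p ∉ 𝔓.asIdeal → Apx 𝔓 z (algebraMap k[X] N D *
          (algebraMap k[X] N p - θ))) := by
  set W := crvC (algebraMap k[X] K (D * a2)) (algebraMap k[X] K (D ^ 2 * a4))
      (algebraMap k[X] K (D ^ 3 * a6)) with hW
  set W1 := crvC (algebraMap k[X] K a2) (algebraMap k[X] K a4) (algebraMap k[X] K a6) with hW1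
  have eW : W = crvC (algebraMap k[X] K D * algebraMap k[X] K a2)
      (algebraMap k[X] K D ^ 2 * algebraMap k[X] K a4)
      (algebraMap k[X] K D ^ 3 * algebraMap k[X] K a6) := by
    rw [hW, map_mul, map_mul, map_mul, map_pow, map_pow]
  obtain ⟨ι, P0, Q, hPt⟩ := exists_locPt (L := Comp k[X] K v) (Ω' := Sep (Comp k[X] K v)) W hf hf2
    hloc
  let vL : Valuation (Comp k[X] K v) (WithZero (Multiplicative ℤ)) :=
    (Valued.v : Valuation (v.adicCompletion K) (WithZero (Multiplicative ℤ)))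
  set dL : Comp k[X] K v := algebraMap K (Comp k[X] K v) (algebraMap k[X] K D) with hdL
  -- the data at a prime
  have data : ∀ 𝔓 : HeightOneSpectrum R, 𝔓.under k[X] = v →
      ∃ (j : Comp k[X] K v →+* Comp R N 𝔓) (g D0 : Comp R N 𝔓)
        (wE : Valuation (Comp R N 𝔓) (WithZero (Multiplicative ℤ))),
        wE = (Valued.v : Valuation (𝔓.adicCompletion N) (WithZero (Multiplicative ℤ))) ∧
        (∀ x : K, j (algebraMap K (Comp k[X] K v) x) = algebraMap N (Comp R N 𝔓) (algebraMap K N x)) ∧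
        (∀ s, vL s ≤ 1 → wE (j s) ≤ 1) ∧ (∀ s, vL s < 1 → wE (j s) < 1) ∧
        g ≠ 0 ∧ algebraMap N (Comp R N 𝔓) z = g ^ 2 * D0 ∧ ((Q = 0 ∧ D0 = 1) ∨
          ∃ (x y : Comp k[X] K v) (h : (W.baseChange (Comp k[X] K v)).toAffine.Nonsingular x y),
            Q = Point.some x y h ∧ y ^ 2 = cub W x ∧
            ((j x = algebraMap N (Comp R N 𝔓) (algebraMap K N (algebraMap k[X] K D) * θ) ∧
                D0 = cub' W (algebraMap N (Comp R N 𝔓)
                  (algebraMap K N (algebraMap k[X] K D) * θ))) ∨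
            (j x ≠ algebraMap N (Comp R N 𝔓) (algebraMap K N (algebraMap k[X] K D) * θ) ∧
                D0 = j x - algebraMap N (Comp R N 𝔓)
                  (algebraMap K N (algebraMap k[X] K D) * θ)))) := by
    rintro 𝔓 rfl
    haveI hlo : 𝔓.asIdeal.LiesOver (𝔓.under k[X]).asIdeal := ⟨rfl⟩
    have hval : ∀ x : K, (𝔓.under k[X]).valuation K x ^
        (𝔓.under k[X]).asIdeal.ramificationIdx' 𝔓.asIdeal =
        𝔓.valuation N (algebraMap K N x) := fun x =>
      HeightOneSpectrum.valuation_liesOver (A := k[X]) N (𝔓.under k[X]) 𝔓 x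
    have he : (𝔓.under k[X]).asIdeal.ramificationIdx' 𝔓.asIdeal ≠ 0 :=
      Ideal.IsDedekindDomain.ramificationIdx'_ne_zero_of_liesOver 𝔓.asIdeal (𝔓.under k[X]).ne_bot
    obtain ⟨j, hj1, hj2, hj3⟩ := exists_compl_map (𝔓.under k[X]) 𝔓 (algebraMap K N)
      (fun x hx => by rw [← hval]; exact pow_le_one₀ zero_le hx)
      (fun x hx => by rw [← hval]; exact pow_lt_one₀ zero_le hx he)
    haveI : IsScalarTower K K (Comp R N 𝔓) := IsScalarTower.of_algebraMap_eq fun x => rfl
    let j' : Comp k[X] K (𝔓.under k[X]) →+* Comp R N 𝔓 := j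
    have hj' : ∀ x : K, j' (algebraMap K (Comp k[X] K (𝔓.under k[X])) x) =
        algebraMap K (Comp R N 𝔓) x := fun x => hj1 x
    obtain ⟨g, D0, hg, hzD, hcase⟩ := locQ (K := K) (F := K) (Ω := Sep K)
      (L := Comp k[X] K (𝔓.under k[X])) (Ω' := Sep (Comp k[X] K (𝔓.under k[X])))
      (E := Comp R N 𝔓) (M := N) W (Sep (Comp R N 𝔓)) hC hθ j' hj' hf hf2 hPt ht hz hk
    exact ⟨j', g, D0, (Valued.v : Valuation (𝔓.adicCompletion N) (WithZero (Multiplicative ℤ))),
      rfl, fun x => hj' x, fun s hs => hj2 s hs, fun s hs => hj3 s hs, hg, hzD, hcase⟩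
  -- auxiliary facts
  have fac : ∀ 𝔓 : HeightOneSpectrum R, 𝔓.under k[X] = v →
      ∀ wE : Valuation (Comp R N 𝔓) (WithZero (Multiplicative ℤ)),
      wE = (Valued.v : Valuation (𝔓.adicCompletion N) (WithZero (Multiplicative ℤ))) →
      (∀ x : N, wE (algebraMap N (Comp R N 𝔓) x) = 𝔓.valuation N x) ∧
      (∀ p : k[X], wE (algebraMap N (Comp R N 𝔓) (algebraMap K N (algebraMap k[X] K p))) ≤ 1) ∧
      wE (algebraMap N (Comp R N 𝔓) (algebraMap K N (algebraMap k[X] K D))) = exp (-1 : ℤ) ∧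
      wE (algebraMap N (Comp R N 𝔓) θ) ≤ 1 ∧
      wE (3 * algebraMap N (Comp R N 𝔓) θ ^ 2 +
        2 * algebraMap N (Comp R N 𝔓) (algebraMap K N (algebraMap k[X] K a2)) *
          algebraMap N (Comp R N 𝔓) θ +
        algebraMap N (Comp R N 𝔓) (algebraMap K N (algebraMap k[X] K a4))) = 1 ∧
      algebraMap N (Comp R N 𝔓) θ ^ 3 +
        algebraMap N (Comp R N 𝔓) (algebraMap K N (algebraMap k[X] K a2)) *
          algebraMap N (Comp R N 𝔓) θ ^ 2 +
        algebraMap N (Comp R N 𝔓) (algebraMap K N (algebraMap k[X] K a4)) *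
          algebraMap N (Comp R N 𝔓) θ +
        algebraMap N (Comp R N 𝔓) (algebraMap K N (algebraMap k[X] K a6)) = 0 := by
    intro 𝔓 h𝔓 wE hwE
    obtain ⟨hD1, hD2⟩ := hD 𝔓 h𝔓
    have wz : ∀ x : N, wE (algebraMap N (Comp R N 𝔓) x) = 𝔓.valuation N x := fun x => by
      rw [hwE]
      exact HeightOneSpectrum.valuedAdicCompletion_eq_valuation' 𝔓 x
    refine ⟨wz, fun p => ?_, ?_, ?_, ?_, ?_⟩
    · rw [wz, ← IsScalarTower.algebraMap_apply k[X] K N, IsScalarTower.algebraMap_apply k[X] R N]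
      exact 𝔓.valuation_le_one _
    · rw [wz, hD1]
    · rw [wz, ← hθB]; exact 𝔓.valuation_le_one _
    · have h1 : 3 * algebraMap N (Comp R N 𝔓) θ ^ 2 +
        2 * algebraMap N (Comp R N 𝔓) (algebraMap K N (algebraMap k[X] K a2)) *
          algebraMap N (Comp R N 𝔓) θ +
        algebraMap N (Comp R N 𝔓) (algebraMap K N (algebraMap k[X] K a4)) =
        algebraMap N (Comp R N 𝔓) (cub' W1 θ) := by
        simp only [cub', hW1, crvC, map_add, map_mul, map_pow, map_ofNat]
      rw [h1, wz, hD2]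
    · have h1 : algebraMap N (Comp R N 𝔓) θ ^ 3 +
        algebraMap N (Comp R N 𝔓) (algebraMap K N (algebraMap k[X] K a2)) *
          algebraMap N (Comp R N 𝔓) θ ^ 2 +
        algebraMap N (Comp R N 𝔓) (algebraMap K N (algebraMap k[X] K a4)) *
          algebraMap N (Comp R N 𝔓) θ +
        algebraMap N (Comp R N 𝔓) (algebraMap K N (algebraMap k[X] K a6)) =
        algebraMap N (Comp R N 𝔓) (cub W1 θ) := by
        simp only [cub, hW1, crvC, map_add, map_mul, map_pow, map_ofNat]
      rw [h1, hθ0, map_zero]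
  -- the reductions in the completion of `K`
  obtain ⟨𝔓0, h𝔓0⟩ := hne
  have hdL0 : dL ≠ 0 := by
    intro h0
    obtain ⟨j, g, D0, wE, hwE, hj, -⟩ := data 𝔓0 h𝔓0
    obtain ⟨-, -, hwd, -⟩ := fac 𝔓0 h𝔓0 wE hwE
    rw [← hj] at hwd
    have : j dL = 0 := by rw [h0, map_zero]
    rw [show algebraMap K (Comp k[X] K v) (algebraMap k[X] K D) = dL from rfl, this, map_zero] at hwd
    exact exp_ne_zero hwd.symm
  have hcubW : ∀ x : Comp k[X] K v, cub W x = dL ^ 3 * cub W1 (x / dL) := by
    intro x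
    rw [eW]
    have e := cub_tw (L := Comp k[X] K v) (algebraMap k[X] K a2)
      (algebraMap k[X] K a4) (algebraMap k[X] K a6) (algebraMap k[X] K D) (x / dL)
    rw [← hdL, mul_div_cancel₀ x hdL0] at e
    exact e
  -- the image of the equation
  have eqE : ∀ (𝔓 : HeightOneSpectrum R) (j : Comp k[X] K v →+* Comp R N 𝔓),
      (∀ x : K, j (algebraMap K (Comp k[X] K v) x) =
        algebraMap N (Comp R N 𝔓) (algebraMap K N x)) →
      ∀ x y : Comp k[X] K v, y ^ 2 = cub W x →
        j y ^ 2 = (algebraMap N (Comp R N 𝔓) (algebraMap K N (algebraMap k[X] K D))) ^ 3 *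
          (j (x / dL) ^ 3 + algebraMap N (Comp R N 𝔓) (algebraMap K N (algebraMap k[X] K a2)) *
            j (x / dL) ^ 2 + algebraMap N (Comp R N 𝔓) (algebraMap K N (algebraMap k[X] K a4)) *
            j (x / dL) + algebraMap N (Comp R N 𝔓) (algebraMap K N (algebraMap k[X] K a6))) := by
    intro 𝔓 j hj x y hxy
    rw [← map_pow, hxy, hcubW]
    simp only [cub, hW1, crvC, map_add, map_mul, map_pow, ← hj]
    rfl
  have jx : ∀ (𝔓 : HeightOneSpectrum R) (j : Comp k[X] K v →+* Comp R N 𝔓),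
      (∀ x : K, j (algebraMap K (Comp k[X] K v) x) =
        algebraMap N (Comp R N 𝔓) (algebraMap K N x)) →
      ∀ x : Comp k[X] K v, j x = algebraMap N (Comp R N 𝔓) (algebraMap K N (algebraMap k[X] K D)) *
        j (x / dL) := by
    intro 𝔓 j hj x
    rw [← hj, ← map_mul]
    congr 1
    exact (mul_div_cancel₀ x hdL0).symm
  rcases Q with _ | ⟨x, y, hns⟩
  · -- the origin
    left
    intro 𝔓 h𝔓
    obtain ⟨j, g, D0, wE, hwE, hj, hj2, hj3, hg, hzD, hcase⟩ := data 𝔓 h𝔓
    rcases hcase with ⟨-, rfl⟩ | ⟨x', y', hns', hQ', -⟩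
    · refine ⟨g, 1, hg, ?_, ?_⟩
      · rw [map_one, mul_one, mul_one]
        rw [mul_one] at hzD
        exact hzD
      · rw [sub_self, map_zero]
        exact zero_lt_one
    · exact absurd hQ' (by simp [Point.zero_def])
  have hxy : y ^ 2 = cub W x := by
    obtain ⟨j, g, D0, wE, hwE, hj, hj2, hj3, hg, hzD, hcase⟩ := data 𝔓0 h𝔓0
    rcases hcase with ⟨h0, -⟩ | ⟨x', y', hns', hQ', hxy', -⟩
    · exact absurd h0 (by simp [Point.zero_def])
    · obtain ⟨rfl, rfl⟩ := (Point.some.injEq _ _ _ _ _ _).mp hQ'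
      exact hxy'
  have hcase' : ∀ (𝔓 : HeightOneSpectrum R) (h𝔓 : 𝔓.under k[X] = v)
      (j : Comp k[X] K v →+* Comp R N 𝔓) (D0 : Comp R N 𝔓),
      ((Point.some x y hns = (0 : Pt W (Comp k[X] K v)) ∧ D0 = 1) ∨
          ∃ (x' y' : Comp k[X] K v) (h : (W.baseChange (Comp k[X] K v)).toAffine.Nonsingular x' y'),
            Point.some x y hns = Point.some x' y' h ∧ y' ^ 2 = cub W x' ∧
            ((j x' = algebraMap N (Comp R N 𝔓) (algebraMap K N (algebraMap k[X] K D) * θ) ∧
                D0 = cub' W (algebraMap N (Comp R N 𝔓)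
                  (algebraMap K N (algebraMap k[X] K D) * θ))) ∨
            (j x' ≠ algebraMap N (Comp R N 𝔓) (algebraMap K N (algebraMap k[X] K D) * θ) ∧
                D0 = j x' - algebraMap N (Comp R N 𝔓)
                  (algebraMap K N (algebraMap k[X] K D) * θ)))) →
      ((j x = algebraMap N (Comp R N 𝔓) (algebraMap K N (algebraMap k[X] K D) * θ) ∧
                D0 = cub' W (algebraMap N (Comp R N 𝔓)
                  (algebraMap K N (algebraMap k[X] K D) * θ))) ∨
            (j x ≠ algebraMap N (Comp R N 𝔓) (algebraMap K N (algebraMap k[X] K D) * θ) ∧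
                D0 = j x - algebraMap N (Comp R N 𝔓)
                  (algebraMap K N (algebraMap k[X] K D) * θ))) := by
    intro 𝔓 h𝔓 j D0 h
    rcases h with ⟨h0, -⟩ | ⟨x', y', hns', hQ', -, h⟩
    · exact absurd h0 (by simp [Point.zero_def])
    · obtain ⟨rfl, rfl⟩ := (Point.some.injEq _ _ _ _ _ _).mp hQ'
      exact h
  rcases lt_or_ge 1 (vL (x / dL)) with hfar | hint
  · -- close to the origin
    left
    intro 𝔓 h𝔓
    obtain ⟨j, g, D0, wE, hwE, hj, hj2, hj3, hg, hzD, hcase⟩ := data 𝔓 h𝔓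
    obtain ⟨wz, v1, hwd, hθ1, hcE', hcE⟩ := fac 𝔓 h𝔓 wE hwE
    have hc := hcase' 𝔓 h𝔓 j D0 hcase
    have hXinv : vL (x / dL)⁻¹ < 1 := by
      rw [map_inv₀]
      exact inv_lt_one_of_one_lt₀ hfar
    have hX0 : x / dL ≠ 0 := by
      intro h0
      rw [h0, map_zero] at hfar
      exact absurd hfar (not_lt.2 zero_le)
    have hX : 1 < wE (j (x / dL)) := by
      have h1 := hj3 _ hXinv
      rw [map_inv₀, map_inv₀] at h1
      have h3 : wE (j (x / dL)) ≠ 0 := (Valuation.ne_zero_iff _).2 ((_root_.map_ne_zero _).2 hX0)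
      exact (inv_lt_one₀ (zero_lt_iff.2 h3)).1 h1
    have hd0 : algebraMap N (Comp R N 𝔓) (algebraMap K N (algebraMap k[X] K D)) ≠ 0 := by
      intro h0
      rw [h0, map_zero] at hwd
      exact exp_ne_zero hwd.symm
    obtain ⟨γ, η, hγ, e, hη⟩ := far wE hd0 hX (v1 a2) (v1 a4) (v1 a6) hθ1 (eqE 𝔓 j hj x y hxy)
    rcases hc with ⟨h1, -⟩ | ⟨h1, rfl⟩
    · exfalso
      rw [jx 𝔓 j hj x, map_mul] at h1
      have h3 := mul_left_cancel₀ hd0 h1
      rw [h3] at hX
      exact absurd hX (not_lt.2 hθ1)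
    · have e2 : j x - algebraMap N (Comp R N 𝔓) (algebraMap K N (algebraMap k[X] K D) * θ) =
          γ ^ 2 * η := by
        rw [jx 𝔓 j hj x, map_mul, ← mul_sub, e]
      have e3 : algebraMap N (Comp R N 𝔓) z = (g * γ) ^ 2 * algebraMap N (Comp R N 𝔓) 1 * η := by
        rw [hzD, e2, map_one]
        ring
      rw [hwE] at hη
      exact ⟨g * γ, η, mul_ne_zero hg hγ, e3, hη⟩
  · -- integral
    have vx : ∀ x : K, vL (algebraMap K (Comp k[X] K v) x) = v.valuation K x := fun x =>
      HeightOneSpectrum.valuedAdicCompletion_eq_valuation' v x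
    have vi : ∀ p : k[X], vL (algebraMap K (Comp k[X] K v) (algebraMap k[X] K p)) =
        v.intValuation p := fun p => by
      rw [vx, v.valuation_of_algebraMap]
    have vi1 : ∀ p : k[X], vL (algebraMap K (Comp k[X] K v) (algebraMap k[X] K p)) ≤ 1 :=
      fun p => by rw [vi]; exact v.intValuation_le_one _
    have ad : ∀ {s t : (Comp k[X] K v)}, vL s ≤ 1 → vL t ≤ 1 → vL (s + t) ≤ 1 := fun hs ht =>
      (Valuation.map_add _ _ _).trans (max_le hs ht)
    have mu : ∀ {s t : (Comp k[X] K v)}, vL s ≤ 1 → vL t ≤ 1 → vL (s * t) ≤ 1 := fun hs ht => by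
      rw [map_mul]; exact mul_le_one' hs ht
    have hcub : vL (cub W1 (x / dL)) < 1 := by
      have hle : vL (cub W1 (x / dL)) ≤ 1 := by
        have e : cub W1 (x / dL) = (x / dL) * (x / dL) * (x / dL) +
            algebraMap K (Comp k[X] K v) (algebraMap k[X] K a2) * ((x / dL) * (x / dL)) +
            algebraMap K (Comp k[X] K v) (algebraMap k[X] K a4) * (x / dL) +
            algebraMap K (Comp k[X] K v) (algebraMap k[X] K a6) := by
          simp only [cub, hW1, crvC]
          ring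
        rw [e]
        exact ad (ad (ad (mu (mu hint hint) hint) (mu (vi1 a2) (mu hint hint)))
          (mu (vi1 a4) hint)) (vi1 a6)
      rcases hle.lt_or_eq with h1 | h1
      · exact h1
      · exfalso
        obtain ⟨j, g, D0, wE, hwE, hj, hj2, hj3, hg, hzD, hcase⟩ := data 𝔓0 h𝔓0
        obtain ⟨wz, v1, hwd, hθ1, hcE', hcE⟩ := fac 𝔓0 h𝔓0 wE hwE
        have hw : wE (j (cub W1 (x / dL))) = 1 := by
          refine le_antisymm (hj2 _ h1.le) ?_
          have h3 : vL (cub W1 (x / dL))⁻¹ ≤ 1 := by rw [map_inv₀, h1, _root_.inv_one]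
          have h5' := hj2 _ h3
          rw [map_inv₀, map_inv₀] at h5'
          have hne : wE (j (cub W1 (x / dL))) ≠ 0 := by
            rw [Valuation.ne_zero_iff, _root_.map_ne_zero]
            intro h0
            rw [h0, map_zero] at h1
            exact zero_ne_one h1
          exact (inv_le_one₀ (zero_lt_iff.2 hne)).1 h5'
        have h3 : y ^ 2 = dL ^ 3 * cub W1 (x / dL) := by rw [hxy, hcubW]
        have h5 := congrArg (fun s => wE (j s)) h3
        simp only [map_pow, map_mul] at h5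
        rw [hw, mul_one, hdL, hj, hwd] at h5
        have hy0 : wE (j y) ≠ 0 := by
          intro h0
          rw [h0, zero_pow two_ne_zero] at h5
          exact pow_ne_zero 3 exp_ne_zero h5.symm
        rw [← exp_log hy0, ← exp_nsmul, ← exp_nsmul, exp_inj] at h5
        simp only [nsmul_eq_mul] at h5
        push_cast at h5
        omega
    obtain ⟨p, hp⟩ : ∃ p : k[X], vL (x / dL - algebraMap K (Comp k[X] K v)
        (algebraMap k[X] K p)) ≤ exp (-2 : ℤ) := by
      have hx' : (Valued.v (R := v.adicCompletion K) (Γ₀ := WithZero (Multiplicative ℤ)))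
        (x / dL) ≤ 1 := hint
      obtain ⟨p, hp⟩ := approx v (x / dL) hx'
      exact ⟨p, hp⟩
    have two : exp (-2 : ℤ) < (1 : WithZero (Multiplicative ℤ)) := by
      rw [← exp_zero, exp_lt_exp]; norm_num
    have hp1 := lt_of_le_of_lt hp two
    right
    refine ⟨p, ?_, fun 𝔓 h𝔓 => ⟨fun hmem => ?_, fun hmem => ?_⟩⟩
    · set s := x / dL with hs
      set y' := algebraMap K (Comp k[X] K v) (algebraMap k[X] K p) with hy'
      have wy : vL y' ≤ 1 := by rw [hy', vi]; exact v.intValuation_le_one _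
      have c1 : vL (cub W1 y') < 1 := by
        have e : cub W1 y' = cub W1 s - (s - y') * (s * s + s * y' + y' * y' +
            algebraMap K (Comp k[X] K v) (algebraMap k[X] K a2) * (s + y') +
            algebraMap K (Comp k[X] K v) (algebraMap k[X] K a4)) := by
          simp only [cub, hW1, crvC]
          ring
        rw [e]
        refine lt_of_le_of_lt (Valuation.map_sub _ _ _) (max_lt hcub ?_)
        rw [map_mul]
        refine lt_of_le_of_lt (mul_le_of_le_one_right' ?_) hp1
        exact ad (ad (ad (ad (mu hint hint) (mu hint wy)) (mu wy wy)) (mu (vi1 a2) (ad hint wy)))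
          (vi1 a4)
      have e1 : cub W1 y' = algebraMap K (Comp k[X] K v)
          (algebraMap k[X] K (p ^ 3 + a2 * p ^ 2 + a4 * p + a6)) := by
        simp only [cub, hW1, crvC, map_add, map_mul, map_pow]
        rfl
      rw [e1, vi] at c1
      rwa [HeightOneSpectrum.intValuation_lt_one_iff_mem] at c1
    · obtain ⟨j, g, D0, wE, hwE, hj, hj2, hj3, hg, hzD, hcase⟩ := data 𝔓 h𝔓
      obtain ⟨wz, v1, hwd, hθ1, hcE', hcE⟩ := fac 𝔓 h𝔓 wE hwE
      have hc := hcase' 𝔓 h𝔓 j D0 hcase
      have hd0 : algebraMap N (Comp R N 𝔓) (algebraMap K N (algebraMap k[X] K D)) ≠ 0 := by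
        intro h0
        rw [h0, map_zero] at hwd
        exact exp_ne_zero hwd.symm
      have ecub : algebraMap N (Comp R N 𝔓) (cub' W1 θ) = 3 * algebraMap N (Comp R N 𝔓) θ ^ 2 +
        2 * algebraMap N (Comp R N 𝔓) (algebraMap K N (algebraMap k[X] K a2)) *
          algebraMap N (Comp R N 𝔓) θ +
        algebraMap N (Comp R N 𝔓) (algebraMap K N (algebraMap k[X] K a4)) := by
        simp only [cub', hW1, crvC, map_add, map_mul, map_pow, map_ofNat]
      have hnear : wE (j (x / dL) - algebraMap N (Comp R N 𝔓) θ) < 1 := by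
        have e1 : j (x / dL) - algebraMap N (Comp R N 𝔓) θ =
            j (x / dL - algebraMap K (Comp k[X] K v) (algebraMap k[X] K p)) -
            algebraMap N (Comp R N 𝔓) (algebraMap R N (θB - algebraMap k[X] R p)) := by
          rw [map_sub j, hj, map_sub (algebraMap R N), map_sub (algebraMap N (Comp R N 𝔓)), hθB,
            ← IsScalarTower.algebraMap_apply k[X] R N, ← IsScalarTower.algebraMap_apply k[X] K N]
          ring
        rw [e1]
        refine lt_of_le_of_lt (Valuation.map_sub _ _ _) (max_lt ?_ ?_)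
        · exact hj3 _ hp1
        · rw [wz, 𝔓.valuation_of_algebraMap, HeightOneSpectrum.intValuation_lt_one_iff_mem]
          exact hmem
      rcases hc with ⟨h1, rfl⟩ | ⟨h1, rfl⟩
      · -- the point is the point of order two
        refine ⟨g * algebraMap N (Comp R N 𝔓) (algebraMap K N (algebraMap k[X] K D)), 1,
          mul_ne_zero hg hd0, ?_, ?_⟩
        · have e5 : cub' W (algebraMap N (Comp R N 𝔓)
              (algebraMap K N (algebraMap k[X] K D) * θ)) =
              (algebraMap N (Comp R N 𝔓) (algebraMap K N (algebraMap k[X] K D))) ^ 2 *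
                algebraMap N (Comp R N 𝔓) (cub' W1 θ) := by
            rw [ecub, eW]
            simp only [cub', crvC, map_mul, map_pow]
            have eK : ∀ s : K, algebraMap K (Comp R N 𝔓) s =
              algebraMap N (Comp R N 𝔓) (algebraMap K N s) := fun s => rfl
            simp only [eK]
            ring
          have e6 : algebraMap N (Comp R N 𝔓) z =
              (g * algebraMap N (Comp R N 𝔓) (algebraMap K N (algebraMap k[X] K D))) ^ 2 *
                algebraMap N (Comp R N 𝔓) (cub' W1 θ) * 1 := by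
            rw [hzD, e5]
            ring
          exact e6
        · rw [sub_self, map_zero]
          exact zero_lt_one
      · have hXne : j (x / dL) ≠ algebraMap N (Comp R N 𝔓) θ := by
          intro h0
          apply h1
          rw [jx 𝔓 j hj x, h0, map_mul]
        obtain ⟨γ, η, hγ, e, hη⟩ := near wE hd0 (hj2 _ hint) (v1 a2) hθ1 hcE hcE' hnear hXne
          (eqE 𝔓 j hj x y hxy)
        have e2 : j x - algebraMap N (Comp R N 𝔓) (algebraMap K N (algebraMap k[X] K D) * θ) =
            γ ^ 2 * algebraMap N (Comp R N 𝔓) (cub' W1 θ) * η := by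
          rw [jx 𝔓 j hj x, map_mul, ← mul_sub, e, ecub]
        have e3 : algebraMap N (Comp R N 𝔓) z =
            (g * γ) ^ 2 * algebraMap N (Comp R N 𝔓) (cub' W1 θ) * η := by
          rw [hzD, e2]
          ring
        rw [hwE] at hη
        exact ⟨g * γ, η, mul_ne_zero hg hγ, e3, hη⟩
    · obtain ⟨j, g, D0, wE, hwE, hj, hj2, hj3, hg, hzD, hcase⟩ := data 𝔓 h𝔓
      obtain ⟨wz, v1, hwd, hθ1, hcE', hcE⟩ := fac 𝔓 h𝔓 wE hwE
      have hc := hcase' 𝔓 h𝔓 j D0 hcase
      have e7 : wE (algebraMap N (Comp R N 𝔓) θ -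
          algebraMap N (Comp R N 𝔓) (algebraMap K N (algebraMap k[X] K p))) = 1 := by
        have e8 : algebraMap N (Comp R N 𝔓) θ -
          algebraMap N (Comp R N 𝔓) (algebraMap K N (algebraMap k[X] K p)) =
          algebraMap N (Comp R N 𝔓) (algebraMap R N (θB - algebraMap k[X] R p)) := by
          rw [map_sub (algebraMap R N), map_sub (algebraMap N (Comp R N 𝔓)), hθB,
            ← IsScalarTower.algebraMap_apply k[X] R N, ← IsScalarTower.algebraMap_apply k[X] K N]
        rw [e8, wz, 𝔓.valuation_of_algebraMap, HeightOneSpectrum.intValuation_eq_one_iff]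
        exact hmem
      have e9 : wE (j (x / dL) -
          algebraMap N (Comp R N 𝔓) (algebraMap K N (algebraMap k[X] K p))) < 1 := by
        rw [← hj, ← map_sub]
        exact hj3 _ hp1
      obtain ⟨η, e, hη⟩ := off wE (δ := algebraMap N (Comp R N 𝔓)
        (algebraMap K N (algebraMap k[X] K D))) e9 e7
      rcases hc with ⟨h1, -⟩ | ⟨h1, rfl⟩
      · exfalso
        have hd0 : algebraMap N (Comp R N 𝔓) (algebraMap K N (algebraMap k[X] K D)) ≠ 0 := by
          intro h0
          rw [h0, map_zero] at hwd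
          exact exp_ne_zero hwd.symm
        rw [jx 𝔓 j hj x, map_mul] at h1
        have h3 := mul_left_cancel₀ hd0 h1
        rw [h3, e7] at e9
        exact lt_irrefl _ e9
      · have e2 : j x - algebraMap N (Comp R N 𝔓) (algebraMap K N (algebraMap k[X] K D) * θ) =
            algebraMap N (Comp R N 𝔓) (algebraMap k[X] N D * (algebraMap k[X] N p - θ)) * η := by
          rw [jx 𝔓 j hj x, map_mul, ← mul_sub, e, map_mul, map_sub,
            IsScalarTower.algebraMap_apply k[X] K N, IsScalarTower.algebraMap_apply k[X] K N]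
        have e3 : algebraMap N (Comp R N 𝔓) z = g ^ 2 *
            algebraMap N (Comp R N 𝔓) (algebraMap k[X] N D * (algebraMap k[X] N p - θ)) * η := by
          rw [hzD, e2]
          ring
        rw [hwE] at hη
        exact ⟨g, η, hg, e3, hη⟩

end loc

end Pool.Agent.H4.SL
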