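import Pool.Agent.H4.SL.Alg
import Pool.Agent.H4.SL.Loc

/-!
# The colourings attached to the elements of the Selmer group
-/

set_option autoImplicit false
set_option linter.all false

open Polynomial IsDedekindDomain WeierstrassCurve WeierstrassCurve.Affine WithZero
open scoped Classical nonZeroDivisors

namespace Pool.Agent.H4.SL

open Pool.Agent.TH115.GD
open Pool.Agent.X261.TW (Cov IsCover exists_cover inj_frac isGen EvenOff evenOff_of exists_frac bas)
open Pool.Agent.X261.TD (nm nm_spec nm_ne comp_ne)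
open Pool.Agent.X261.SM (Rg Nt eval_lift exists_poly_cov norm_cov)
open Pool.Agent.Y228.FT
open Pool.Agent.Y160.SE (IsPw)
open Pool.Agent.H4.SA

/-- The curve `D y ^ 2 = f(x) - t`. -/
noncomputable abbrev tw (K : Type) {k : Type} [Field k] [Field K] [Algebra k[X] K] (f D : k[X]) :
    WeierstrassCurve K := twist K (C (f.coeff 2)) (C (f.coeff 1)) (C (f.coeff 0) - X) D

/-- The cocycles which represent the elements of the Selmer group at two. -/
structure IsSel (k : Type) {K : Type} [Field k] [Field K] [Algebra k[X] K] [IsFractionRing k[X] K]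
    (W : WeierstrassCurve K) (c : (Sep K ≃ₐ[K] Sep K) → Pt W (Sep K)) : Prop where
  coc : IsCoc W c
  two : ∀ σ, c σ + c σ = 0
  loc : LocallyTrivial k W c

section aux

variable {k K : Type} [Field k] [Fintype k] [DecidableEq k] [Field K] [Algebra k[X] K]
  [IsFractionRing k[X] K] {f D : k[X]}

omit [Fintype k] [DecidableEq k] in
theorem dsc_ne (hf : Cub f) : dsc f ≠ 0 := by
  intro h0
  have h1 := dsc_comp hf.mon hf.deg
  rw [h0, zero_comp] at h1
  exact mul_ne_zero (pow_ne_zero 2 hf.der) (dlt_ne hf.mon hf.deg hf.two hf.der) h1.symm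

omit [Fintype k] [DecidableEq k] in
theorem disc_ne (hf : Cub f) : (tw K f 1).Δ ≠ 0 := by
  have h1 : (tw K f 1).Δ = algebraMap k[X] K (16 * dsc f) := by
    show (twist K (C (f.coeff 2)) (C (f.coeff 1)) (C (f.coeff 0) - X) 1).Δ = _
    rw [twist_one, crvC_disc]
    unfold dsc
    simp only [map_mul, map_sub, map_add, map_pow, map_ofNat]
  rw [h1, Ne, map_eq_zero_iff _ (IsFractionRing.injective k[X] K)]
  refine mul_ne_zero ?_ (dsc_ne hf)
  have e : (16 : k[X]) = C (2 ^ 4) := by
    have h16 : (2 : k) ^ 4 = 16 := by ring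
    rw [h16, map_ofNat]
  rw [e]
  exact C_ne_zero.2 (pow_ne_zero 4 hf.two)

omit [Fintype k] [DecidableEq k] in
/-- The local triviality with the other instance. -/
theorem locTriv_conv {W : WeierstrassCurve K} {c : (Sep K ≃ₐ[K] Sep K) → Pt W (Sep K)}
    (h : LocallyTrivial k W c) (v : HeightOneSpectrum k[X]) :
    LocTriv W (Comp k[X] K v) (Sep (Comp k[X] K v)) c := by
  have h1 := h.1 v
  set G0 : Prop := LocTriv W (Comp k[X] K v) (Sep (Comp k[X] K v)) c with hG0
  have e : compAlgebra k[X] K v = compAlgebra' k[X] K v K :=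
    Algebra.algebra_ext _ _ fun r => rfl
  have key : ∀ (I : Algebra K (Comp k[X] K v)) (hI : compAlgebra k[X] K v = I)
      (T1 : @IsScalarTower K (Comp k[X] K v) (Sep (Comp k[X] K v)) I.toSMul
        (sepAlgebra (Comp k[X] K v) (Comp k[X] K v)).toSMul
        (@sepAlgebra (Comp k[X] K v) _ K _ I).toSMul)
      (T2 : @IsScalarTower K K (Sep (Comp k[X] K v)) (Algebra.id K).toSMul
        (@sepAlgebra (Comp k[X] K v) _ K _ (compAlgebra k[X] K v)).toSMul
        (@sepAlgebra (Comp k[X] K v) _ K _ I).toSMul),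
      @LocTriv K K (Sep K) _ _ _ _ _ _ _ W (Comp k[X] K v) (Sep (Comp k[X] K v)) _ _ I _
        (@sepAlgebra (Comp k[X] K v) _ K _ I)
        (@sepAlgebra (Comp k[X] K v) _ K _ (compAlgebra k[X] K v)) T1 T2 c → G0 := by
    intro I hI T1 T2 h
    subst hI
    exact h
  exact key _ e _ _ h1

theorem under_eq (f : k[X]) {P Q : k[X]} (iP : Irreducible P) (iQ : Irreducible Q)
    (h : Q ∣ P.comp f) :
    Ideal.comap (compRingHom f : k[X] →+* k[X]) (Ideal.span {Q}) = Ideal.span {P} := by
  have hm : (Ideal.span {P} : Ideal k[X]).IsMaximal :=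
    PrincipalIdealRing.isMaximal_of_irreducible iP
  refine (hm.eq_of_le ?_ ?_).symm
  · have h1 : (Ideal.span {Q} : Ideal k[X]).IsPrime :=
      (Ideal.span_singleton_prime iQ.ne_zero).2 iQ.prime
    exact (Ideal.comap_isPrime (compRingHom f : k[X] →+* k[X]) _ (H := h1)).ne_top
  · rw [Ideal.span_singleton_le_iff_mem, Ideal.mem_comap, Ideal.mem_span_singleton]
    exact h

end aux

section main

variable {k K : Type} [Field k] [Fintype k] [DecidableEq k] [Field K] [Algebra k[X] K]
  [IsFractionRing k[X] K] {f : k[X]} {u : k} {S : Finset k[X]}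

theorem classes (hf : Cub f) (hu : u ≠ 0) (hS : ∀ P ∈ S, Gd f P) :
    (∀ x : K, cub (tw K f (C u * ∏ P ∈ S, P)) x ≠ 0) ∧ ∃ (a b c : Sep K),
      IsC ((tw K f (C u * ∏ P ∈ S, P)).baseChange (Sep K)).toAffine a b c ∧
      ∃ Φ : ((Sep K ≃ₐ[K] Sep K) → Pt (tw K f (C u * ∏ P ∈ S, P)) (Sep K)) → (S → k[X]),
        (∀ c, IsSel k _ c → Φ c ∈ Adm f u S) ∧
        ∀ c c', IsSel k _ c → IsSel k _ c' → Φ c = Φ c' →
          ∀ σ : Sep K ≃ₐ[K] Sep K, σ a = a → sC a (c σ) = sC a (c' σ) := by
  set D : k[X] := C u * ∏ P ∈ S, P with hDdef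
  have hcu : (C u : k[X]) ≠ 0 := C_ne_zero.2 hu
  have hD : D ≠ 0 := mul_ne_zero hcu (Finset.prod_ne_zero_iff.2 fun P hP => (hS P hP).iP.ne_zero)
  have hDK : algebraMap k[X] K D ≠ 0 := (map_ne_zero_iff _ (IsFractionRing.injective k[X] K)).2 hD
  have hm := hf.mon
  have hd := hf.deg
  have h2K : (2 : K) ≠ 0 := tt hf.two
  -- the field
  obtain ⟨iKN, hcov⟩ := exists_cover (k := k) K hd
  letI : Algebra K (Cov k) := iKN
  letI : Algebra K (Nt k) := iKN
  have hcovN : ∀ g : k[X], algebraMap K (Nt k) (algebraMap k[X] K g) =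
    algebraMap (Rg k) (Nt k) (g.comp f : k[X]) := hcov
  letI : Algebra k[X] (Rg k) := RingHom.toAlgebra (compRingHom f : k[X] →+* k[X])
  letI : Algebra k[X] (Nt k) := ((algebraMap K (Nt k)).comp (algebraMap k[X] K)).toAlgebra
  haveI : IsScalarTower k[X] K (Nt k) := IsScalarTower.of_algebraMap_eq fun _ => rfl
  haveI : IsScalarTower k[X] (Rg k) (Nt k) := IsScalarTower.of_algebraMap_eq fun g => hcovN g
  let xR : Rg k := (X : k[X])
  have hevR : ∀ P : k[X][X], aeval xR P =
      ((eval₂ (compRingHom f : k[X] →+* k[X]) X P : k[X]) : Rg k) := fun P => rfl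
  have hsurj : ∀ r : Rg k, ∃ P : k[X][X], aeval xR P = r := fun r =>
    ⟨Polynomial.map C (show k[X] from r), (hevR _).trans (eval_lift f r)⟩
  have hrootR : xR ^ 3 + algebraMap k[X] (Rg k) (C (f.coeff 2)) * xR ^ 2 +
      algebraMap k[X] (Rg k) (C (f.coeff 1)) * xR + algebraMap k[X] (Rg k) (C (f.coeff 0) - X) = 0 := by
    show X ^ 3 + (C (f.coeff 2)).comp f * X ^ 2 + (C (f.coeff 1)).comp f * X +
      (C (f.coeff 0) - X).comp f = (0 : k[X])
    rw [C_comp, C_comp, sub_comp, C_comp, X_comp]
    have := cubic_eq hm hd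
    linear_combination -this
  haveI : Algebra.IsIntegral k[X] (Rg k) := by
    refine ⟨fun z => ?_⟩
    obtain ⟨P, rfl⟩ := hsurj z
    have hx : IsIntegral k[X] xR := by
      refine ⟨X ^ 3 + C (C (f.coeff 2)) * X ^ 2 + C (C (f.coeff 1)) * X + C (C (f.coeff 0) - X),
        ?_, ?_⟩
      · monicity!
      · rw [← aeval_def]
        simp only [map_add, map_mul, map_pow, aeval_X, aeval_C]
        exact hrootR
    exact adjoin_le_integralClosure hx (aeval_mem_adjoin_singleton k[X] xR)
  haveI : Algebra.FiniteType k[X] (Rg k) :=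
    Algebra.FiniteType.of_surjective (aeval xR : k[X][X] →ₐ[k[X]] Rg k) hsurj
  haveI : Module.Finite k[X] (Rg k) := Algebra.IsIntegral.finite
  have hinjR : Function.Injective (algebraMap k[X] (Rg k)) := by
    rw [injective_iff_map_eq_zero]
    intro g hg
    have hg' : g.comp f = 0 := hg
    by_contra h0
    exact comp_ne hd h0 hg'
  haveI : Module.IsTorsionFree k[X] (Rg k) := Module.isTorsionFree_iff_algebraMap_injective.2 hinjR
  let toR : k[X] → Rg k := fun g => g
  -- the generator
  let θ0 : Nt k := algebraMap (Rg k) (Nt k) xR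
  have hθ0 : cub (crvC (algebraMap k[X] K (C (f.coeff 2))) (algebraMap k[X] K (C (f.coeff 1)))
      (algebraMap k[X] K (C (f.coeff 0) - X))) θ0 = 0 := by
    have h1 := congrArg (algebraMap (Rg k) (Nt k)) hrootR
    rw [map_zero] at h1
    rw [← h1]
    simp only [cub, crvC, map_add, map_mul, map_pow, ← IsScalarTower.algebraMap_apply k[X] K (Nt k),
      ← IsScalarTower.algebraMap_apply k[X] (Rg k) (Nt k)]
    rfl
  have hθev : ∀ P : k[X][X], aeval θ0 (P.map (algebraMap k[X] K)) =
      algebraMap (Rg k) (Nt k) (aeval xR P) := by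
    intro P
    rw [aeval_map_algebraMap, aeval_algebraMap_apply]
  have htop0 : IntermediateField.adjoin K {θ0} = ⊤ := by
    rw [eq_top_iff]
    rintro z -
    have hR : ∀ r : Rg k, algebraMap (Rg k) (Nt k) r ∈ IntermediateField.adjoin K {θ0} := by
      intro r
      obtain ⟨P, rfl⟩ := hsurj r
      rw [← hθev]
      exact IntermediateField.algebra_adjoin_le_adjoin K {θ0}
        (aeval_mem_adjoin_singleton K θ0)
    obtain ⟨a, b, hb, rfl⟩ := IsFractionRing.div_surjective (A := Rg k) z
    exact div_mem (hR a) (hR b)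
  have hDN : algebraMap K (Nt k) (algebraMap k[X] K D) ≠ 0 := (_root_.map_ne_zero _).2 hDK
  have hΔ : (crvC (algebraMap k[X] K (C (f.coeff 2))) (algebraMap k[X] K (C (f.coeff 1)))
      (algebraMap k[X] K (C (f.coeff 0) - X))).Δ ≠ 0 := by
    have := disc_ne (K := K) hf
    rwa [tw, twist_one] at this
  have hΔD : (tw K f D).Δ ≠ 0 := twist_disc hD (disc_ne hf)
  obtain ⟨hfd, hsep⟩ := sepN (N := Nt k) rfl rfl hΔ hθ0 htop0
  have hNtop : IntermediateField.adjoin K {algebraMap K (Nt k) (algebraMap k[X] K D) * θ0} = ⊤ := by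
    rw [eq_top_iff, ← htop0, IntermediateField.adjoin_simple_le_iff]
    have h1 := IntermediateField.mem_adjoin_simple_self K
      (algebraMap K (Nt k) (algebraMap k[X] K D) * θ0)
    have h2 := mul_mem (inv_mem (IntermediateField.algebraMap_mem
      (IntermediateField.adjoin K {algebraMap K (Nt k) (algebraMap k[X] K D) * θ0})
        (algebraMap k[X] K D))) h1
    rwa [inv_mul_cancel_left₀ hDN] at h2
  -- no roots
  have hfin3 : Module.finrank K (Nt k) = 3 := by
    have h1 : Module.finrank K (Cov k) = 3 := by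
      have := Module.finrank_eq_card_basis (bas (isGen (K := K) (L := Cov k) hcov hm hd))
      rwa [Fintype.card_fin] at this
    exact h1
  have hnr0 : ∀ x : K, cub (crvC (algebraMap k[X] K (C (f.coeff 2)))
      (algebraMap k[X] K (C (f.coeff 1))) (algebraMap k[X] K (C (f.coeff 0) - X))) x ≠ 0 := by
    intro x hx
    set W1 := crvC (algebraMap k[X] K (C (f.coeff 2)))
      (algebraMap k[X] K (C (f.coeff 1))) (algebraMap k[X] K (C (f.coeff 0) - X)) with hW1
    have hr : aeval θ0 (cubP W1 K) = 0 := by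
      have : aeval θ0 (cubP W1 K) = cub W1 θ0 := by simp [cubP, cub]
      rw [this, hθ0]
    have hint : IsIntegral K θ0 := ⟨cubP W1 K, cubP_deg.2, hr⟩
    have h1 := IntermediateField.adjoin.finrank hint
    rw [htop0, IntermediateField.finrank_top', hfin3] at h1
    have h3 : cubP W1 K = minpoly K θ0 := by
      refine eq_of_monic_of_dvd_of_natDegree_le (minpoly.monic hint) cubP_deg.2
        (minpoly.dvd K θ0 hr) ?_
      rw [cubP_deg.1, ← h1]
    have h4 := minpoly.irreducible hint
    rw [← h3] at h4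
    have h5 : (cubP W1 K).IsRoot x := by
      have : (cubP W1 K).eval x = cub W1 x := by simp [cubP, cub]
      rw [IsRoot, this, hx]
    have h6 := degree_eq_one_of_irreducible_of_root h4 h5
    have h7 : (cubP W1 K).natDegree = 1 := natDegree_eq_of_degree_eq_some h6
    rw [cubP_deg.1] at h7
    exact absurd h7 (by norm_num)
  have hnrD : ∀ x : K, cub (tw K f D) x ≠ 0 := by
    intro x
    have e : x = algebraMap K K (algebraMap k[X] K D) *
        (x / algebraMap k[X] K D) := by
      rw [Algebra.algebraMap_self, RingHom.id_apply, mul_div_cancel₀ _ hDK]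
    rw [e, tw, twist_eq, cub_tw]
    exact mul_ne_zero (pow_ne_zero 3 hDK) (hnr0 _)
  -- the embedding
  let i : Nt k →ₐ[K] Sep K := IsSepClosed.lift
  letI : Algebra (Nt k) (Sep K) := i.toRingHom.toAlgebra
  haveI : IsScalarTower K (Nt k) (Sep K) :=
    IsScalarTower.of_algebraMap_eq fun x => (i.commutes x).symm
  set a : Sep K := algebraMap (Nt k) (Sep K) (algebraMap K (Nt k) (algebraMap k[X] K D) * θ0) with ha
  have hcuba : cub (tw K f D) a = 0 := by
    have h1 : cub (tw K f D) (algebraMap K (Nt k) (algebraMap k[X] K D) * θ0) = 0 := by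
      rw [tw, twist_eq, cub_tw, hθ0, mul_zero]
    have h3 := cub_map (tw K f D) (IsScalarTower.toAlgHom K (Nt k) (Sep K))
      (algebraMap K (Nt k) (algebraMap k[X] K D) * θ0)
    rw [h1, map_zero] at h3
    exact h3
  obtain ⟨b, c, hC⟩ := exists_isC (W := tw K f D) rfl rfl hΔD h2K hcuba
  refine ⟨hnrD, a, b, c, hC, ?_⟩
  -- the prime ideals over `P`
  have hund : ∀ {P Q : k[X]} (iP : Irreducible P) (iQ : Irreducible Q), Q ∣ P.comp f →
      HeightOneSpectrum.under k[X] (show HeightOneSpectrum (Rg k) from vpr iQ.prime) =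
        vpr iP.prime := by
    intro P Q iP iQ h
    apply HeightOneSpectrum.ext
    exact under_eq f iP iQ h
  have hover : ∀ {P : k[X]} (iP : Irreducible P) (𝔓 : HeightOneSpectrum (Rg k)),
      𝔓.under k[X] = vpr iP.prime → ∃ (Q : k[X]) (iQ : Irreducible Q), Q ∣ P.comp f ∧
        𝔓 = (show HeightOneSpectrum (Rg k) from vpr iQ.prime) := by
    intro P iP 𝔓 h𝔓
    let 𝔔 : HeightOneSpectrum k[X] := 𝔓
    have hpr : (𝔔.asIdeal).IsPrincipal := IsPrincipalIdealRing.principal _
    obtain ⟨Q, hQ⟩ := hpr.principal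
    have hQ' : 𝔔.asIdeal = Ideal.span {Q} := hQ
    have hQ0 : Q ≠ 0 := by
      rintro rfl
      apply 𝔔.ne_bot
      rw [hQ']
      simp
    have hQp : Prime Q := (Ideal.span_singleton_prime hQ0).1 (hQ' ▸ 𝔔.isPrime)
    refine ⟨Q, hQp.irreducible, ?_, ?_⟩
    · have h1 : P ∈ (𝔓.under k[X]).asIdeal := by
        rw [h𝔓]
        exact Ideal.mem_span_singleton_self P
      have h3 : P.comp f ∈ 𝔔.asIdeal := h1
      rw [hQ'] at h3
      exact Ideal.mem_span_singleton.1 h3
    · apply HeightOneSpectrum.ext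
      exact hQ'
  -- the data
  have key : ∀ c : (Sep K ≃ₐ[K] Sep K) → Pt (tw K f D) (Sep K),
      ∃ (t : Sep K) (z : Nt k) (h s : k[X]) (v : S → k[X]), IsSel k _ c →
        t ≠ 0 ∧ t ^ 2 = algebraMap (Nt k) (Sep K) z ∧
        (∀ σ : Sep K ≃ₐ[K] Sep K, σ a = a → σ t = sC a (c σ) * t) ∧ h ≠ 0 ∧ s ≠ 0 ∧
        z * algebraMap (Rg k) (Nt k) s ^ 2 = algebraMap (Rg k) (Nt k) h ∧
        (∀ x : S, zz f x.1 (v x) ≠ 0) ∧
        (∃ G : k[X], h * ∏ x : S, zz f x.1 (v x) = G ^ 2) ∧ v ∈ Adm f u S := by
    intro c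
    by_cases hc : IsSel k _ c
    · obtain ⟨t, z, ht, hz0, hz, hk, hev, hnorm⟩ := layerK (R := Rg k) hC hnrD rfl hNtop hc.coc hc.two
        hc.loc
      -- parity away from `D`
      have hevz : ∀ v : HeightOneSpectrum k[X], D.comp f ∉ v.asIdeal →
          IsPw 2 (v.valuation (Cov k) z) := by
        intro v hv
        have hnb : ¬ IsBad (C (f.coeff 2)) (C (f.coeff 1)) (C (f.coeff 0) - X) D θ0
            (show HeightOneSpectrum (Rg k) from v) := by
          unfold IsBad
          rintro (h | ⟨-, h⟩)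
          · apply hv
            rw [IsScalarTower.algebraMap_apply k[X] (Rg k) (Nt k),
              HeightOneSpectrum.valuation_lt_one_iff_mem] at h
            exact h
          · unfold ftAt at h
            rw [derivative_C, derivative_C, derivative_sub, derivative_C, derivative_X, map_zero,
              zero_mul, zero_mul, zero_add, zero_add, zero_sub, map_neg, map_one,
              Valuation.map_neg, map_one] at h
            exact lt_irrefl _ h
        obtain ⟨y, hy⟩ := hev _ hnb
        exact ⟨y, by rw [pow_two]; exact hy⟩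
      obtain ⟨h, s, hh, hs, e, hE⟩ := exists_poly_cov (A := D.comp f) (z := (z : Cov k)) hz0 hevz
      have hs0 : algebraMap (Rg k) (Nt k) s ≠ 0 :=
        (map_ne_zero_iff _ (IsFractionRing.injective (Rg k) (Nt k))).2 hs
      obtain ⟨y, hy⟩ := hnorm
      obtain ⟨y', hy'⟩ := norm_cov (K := K) (k := k) (y := y) e (by rw [pow_two]; exact hy)
      obtain ⟨A, B, hB, hAB⟩ := exists_frac (k := k) K y'
      have hN : nm K (Cov k) h * B ^ 2 = A ^ 2 := by
        apply inj_frac K
        rw [map_mul, nm_spec hcov hm hd, hy', map_pow, map_pow, ← hAB, mul_pow]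
      -- the local conditions
      have hcnd : ∀ P ∈ S, Cnd (Cov k) f D P h := by
        intro P hP
        have hGP := hS P hP
        have hD1 : ∃ D', D = P * D' ∧ ¬ P ∣ D' := by
          refine ⟨C u * ∏ R ∈ S.erase P, R, ?_, ?_⟩
          · rw [hDdef, ← Finset.mul_prod_erase S _ hP]
            ring
          · intro hd
            rcases hGP.iP.prime.dvd_or_dvd hd with h1 | h1
            · exact hGP.iP.not_isUnit (isUnit_of_dvd_unit h1 (isUnit_C.2 (isUnit_iff_ne_zero.2 hu)))
            · obtain ⟨R, hR, hdR⟩ := (hGP.iP.prime.dvd_finset_prod_iff _).1 h1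
              rw [Finset.mem_erase] at hR
              exact lam_primes hGP (hS R hR.2) (Ne.symm hR.1) hdR
        obtain ⟨D', hD', hnd⟩ := hD1
        have hD'0 : D' ≠ 0 := by
          rintro rfl
          exact hnd (dvd_zero P)
        have hPf0 : P.comp f ≠ 0 := comp_ne hd hGP.iP.ne_zero
        obtain ⟨Q0, iQ0, hQ0⟩ : ∃ Q0 : k[X], Irreducible Q0 ∧ Q0 ∣ P.comp f := by
          have hnu : ¬ IsUnit (P.comp f) := by
            intro h
            have h1 := natDegree_eq_zero_of_isUnit h
            rw [natDegree_comp, hd] at h1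
            have := hGP.iP.natDegree_pos
            omega
          exact WfDvdMonoid.exists_irreducible_factor hnu hPf0
        have loc := locAt (R := Rg k) (K := K) (N := Nt k) (θB := xR) (θ := θ0) (z := z) rfl rfl hC hθ0
          hc.coc hc.two (vpr hGP.iP.prime) (locTriv_conv hc.loc _) ht hz hk
          ⟨(show HeightOneSpectrum (Rg k) from vpr iQ0.prime), hund hGP.iP iQ0 hQ0⟩ (by
            intro 𝔓 h𝔓
            obtain ⟨Q, iQ, hQ, rfl⟩ := hover hGP.iP 𝔓 h𝔓
            constructor
            · rw [hcovN]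
              have e1 : (vpr iQ.prime).valuation (Cov k) (algebraMap k[X] (Cov k) (D.comp f)) =
                  exp (-1 : ℤ) := by
                rw [val_alg iQ, int_val iQ (comp_ne hd hD), hD', mul_comp,
                  Pool.Agent.X261.TW.mult_mul iQ hPf0 (comp_ne hd hD'0), mult_comp hf hGP iQ hQ,
                  Pool.Agent.X261.TW.mult_zero]
                · norm_num
                · intro hd'
                  obtain ⟨r, s', hab⟩ := (hGP.iP.coprime_iff_not_dvd).2 hnd
                  have h4 := congrArg (fun g : k[X] => g.comp f) hab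
                  simp only [add_comp, mul_comp, one_comp] at h4
                  exact iQ.not_isUnit (isUnit_of_dvd_one
                    (h4 ▸ dvd_add (hQ.mul_left _) (hd'.mul_left _)))
              exact e1
            · have e1 : cub' (crvC (algebraMap k[X] K (C (f.coeff 2)))
                  (algebraMap k[X] K (C (f.coeff 1))) (algebraMap k[X] K (C (f.coeff 0) - X))) θ0 =
                  algebraMap (Rg k) (Nt k) (derivative f : k[X]) := by
                simp only [cub', crvC]
                rw [hcovN, hcovN, C_comp, C_comp]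
                have e3 : toR (derivative f) = 3 * xR ^ 2 + 2 * toR (C (f.coeff 2)) * xR +
                    toR (C (f.coeff 1)) := by
                  have e4 := cubic_deriv hm hd
                  rw [map_ofNat, map_mul, map_ofNat] at e4
                  exact e4
                have e5 := congrArg (algebraMap (Rg k) (Nt k)) e3
                rw [map_add, map_add, map_mul, map_mul, map_mul, map_pow, map_ofNat, map_ofNat] at e5
                exact e5.symm
              rw [e1]
              have e2 : (vpr iQ.prime).valuation (Cov k) (algebraMap k[X] (Cov k) (derivative f)) =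
                  1 := by
                rw [val_alg iQ]
                exact (vpr_eq_one iQ.prime _).2 (hGP.not_deriv iQ hQ)
              exact e2)
        have hsq : ∀ {Q : k[X]} (iQ : Irreducible Q) {b : Cov k},
            Apx (M := Cov k) (vpr iQ.prime) z b →
              Apx (vpr iQ.prime) (algebraMap k[X] (Cov k) h) b := by
          intro Q iQ b hb
          rw [← e]
          exact hb.mul_sq_left hs0
        rcases loc with loc | ⟨p, hp, loc⟩
        · left
          intro Q iQ hQ
          exact hsq iQ (loc _ (hund hGP.iP iQ hQ))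
        · right
          refine ⟨p, ?_, fun Q iQ hQ => ?_⟩
          · have h1 := Ideal.mem_span_singleton.1 hp
            have e1 : f.comp p - X = p ^ 3 + C (f.coeff 2) * p ^ 2 + C (f.coeff 1) * p +
                (C (f.coeff 0) - X) := by
              rw [cubic_comp hm hd]
              ring
            rw [e1]
            exact h1
          · obtain ⟨k1, k2⟩ := loc _ (hund hGP.iP iQ hQ)
            constructor
            · intro hdv
              have h1 := hsq iQ (k1 (Ideal.mem_span_singleton.2 hdv))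
              have e1 : cub' (crvC (algebraMap k[X] K (C (f.coeff 2)))
                  (algebraMap k[X] K (C (f.coeff 1))) (algebraMap k[X] K (C (f.coeff 0) - X))) θ0 =
                  algebraMap (Rg k) (Nt k) (derivative f : k[X]) := by
                simp only [cub', crvC]
                rw [hcovN, hcovN, C_comp, C_comp]
                have e3 : toR (derivative f) = 3 * xR ^ 2 + 2 * toR (C (f.coeff 2)) * xR +
                    toR (C (f.coeff 1)) := by
                  have e4 := cubic_deriv hm hd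
                  rw [map_ofNat, map_mul, map_ofNat] at e4
                  exact e4
                have e5 := congrArg (algebraMap (Rg k) (Nt k)) e3
                rw [map_add, map_add, map_mul, map_mul, map_mul, map_pow, map_ofNat, map_ofNat] at e5
                exact e5.symm
              rw [e1] at h1
              exact h1
            · intro hdv
              have h1 := hsq iQ (k2 fun hm' => hdv (Ideal.mem_span_singleton.1 hm'))
              have e1 : algebraMap k[X] (Nt k) D * (algebraMap k[X] (Nt k) p - θ0) =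
                  algebraMap k[X] (Cov k) (D.comp f) * (algebraMap k[X] (Cov k) (p.comp f - X)) := by
                rw [map_sub (algebraMap k[X] (Cov k))]
                rw [IsScalarTower.algebraMap_apply k[X] K (Nt k), IsScalarTower.algebraMap_apply k[X] K
                  (Nt k) p, hcovN, hcovN]
                rfl
              rw [e1] at h1
              exact h1
      obtain ⟨v, hv, ⟨G, hG⟩, hv1, hv2⟩ := exists_colouring (L := Cov k) hcov hf hu hS hh hE hB hN hcnd
      refine ⟨t, z, h, s, v, fun _ => ⟨ht, hz, hk, hh, hs, e, fun x => ?_, ⟨G, hG⟩,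
        adm_of_colouring (L := Cov k) hf hu hS hh hv hG hv1 hv2⟩⟩
      exact zz_ne_zero hf (hS x.1 x.2) ((mem_VV hf (hS x.1 x.2)).2 (hv x))
    · exact ⟨0, 0, 0, 0, fun _ => 1, fun h => absurd h hc⟩
  choose t z h s v hdata using key
  refine ⟨v, fun c hc => (hdata c hc).2.2.2.2.2.2.2.2, ?_⟩
  intro c c' hc hc' hvv σ hσ
  obtain ⟨ht, hz, hk, hh, hs, e, hzz, ⟨G, hG⟩, -⟩ := hdata c hc
  obtain ⟨ht', hz', hk', hh', hs', e', -, ⟨G', hG'⟩, -⟩ := hdata c' hc'
  rw [← hvv] at hG'
  have hinjN := IsFractionRing.injective (Rg k) (Nt k)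
  have hM0 : ∏ x : S, zz f x.1 (v c x) ≠ 0 := Finset.prod_ne_zero_iff.2 fun x _ => hzz x
  have hMN : algebraMap (Rg k) (Nt k) (∏ x : S, zz f x.1 (v c x) : k[X]) ≠ 0 :=
    (map_ne_zero_iff _ hinjN).2 hM0
  have hsN : algebraMap (Rg k) (Nt k) (s c : k[X]) ≠ 0 := (map_ne_zero_iff _ hinjN).2 hs
  have hsN' : algebraMap (Rg k) (Nt k) (s c' : k[X]) ≠ 0 := (map_ne_zero_iff _ hinjN).2 hs'
  -- the product is a square
  set g : Nt k := algebraMap (Rg k) (Nt k) (G * G' : k[X]) /
    (algebraMap (Rg k) (Nt k) (∏ x : S, zz f x.1 (v c x) : k[X]) *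
      (algebraMap (Rg k) (Nt k) (s c : k[X]) * algebraMap (Rg k) (Nt k) (s c' : k[X]))) with hg
  have hprod : z c * z c' = g ^ 2 := by
    have e1 : (algebraMap (Rg k) (Nt k) (h c : k[X])) *
        algebraMap (Rg k) (Nt k) (∏ x : S, zz f x.1 (v c x) : k[X]) =
        algebraMap (Rg k) (Nt k) (G : k[X]) ^ 2 := by
      have e0 : toR (h c) * toR (∏ x : S, zz f x.1 (v c x)) = toR G ^ 2 := hG
      have e5 := congrArg (algebraMap (Rg k) (Nt k)) e0
      rw [map_mul, map_pow] at e5
      exact e5
    have e2 : (algebraMap (Rg k) (Nt k) (h c' : k[X])) *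
        algebraMap (Rg k) (Nt k) (∏ x : S, zz f x.1 (v c x) : k[X]) =
        algebraMap (Rg k) (Nt k) (G' : k[X]) ^ 2 := by
      have e0 : toR (h c') * toR (∏ x : S, zz f x.1 (v c x)) = toR G' ^ 2 := hG'
      have e5 := congrArg (algebraMap (Rg k) (Nt k)) e0
      rw [map_mul, map_pow] at e5
      exact e5
    have e3 : algebraMap (Rg k) (Nt k) (G * G' : k[X]) =
        algebraMap (Rg k) (Nt k) (G : k[X]) * algebraMap (Rg k) (Nt k) (G' : k[X]) :=
      map_mul (algebraMap (Rg k) (Nt k)) (G : Rg k) (G' : Rg k)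
    rw [hg, div_pow, eq_div_iff (pow_ne_zero 2 (mul_ne_zero hMN (mul_ne_zero hsN hsN')))]
    generalize algebraMap (Rg k) (Nt k) (∏ x : S, zz f x.1 (v c x) : k[X]) = mm at *
    generalize algebraMap (Rg k) (Nt k) (G * G' : k[X]) = gg at *
    subst e3
    generalize algebraMap (Rg k) (Nt k) (h c : k[X]) = x1 at *
    generalize algebraMap (Rg k) (Nt k) (h c' : k[X]) = x2 at *
    have e4 : z c * z c' * (mm * (algebraMap (Rg k) (Nt k) (s c : k[X]) *
        algebraMap (Rg k) (Nt k) (s c' : k[X]))) ^ 2 =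
        (z c * algebraMap (Rg k) (Nt k) (s c : k[X]) ^ 2 * mm) *
          (z c' * algebraMap (Rg k) (Nt k) (s c' : k[X]) ^ 2 * mm) := by ring
    rw [e4, e, e', e1, e2]
    ring
  have hfixN : ∀ y : Nt k, σ (algebraMap (Nt k) (Sep K) y) = algebraMap (Nt k) (Sep K) y := by
    intro y
    obtain ⟨τ', hτ'⟩ := lift_fix hNtop σ hσ
    have h1 := hτ' (algebraMap (Nt k) (Sep K) y)
    rw [τ'.commutes] at h1
    exact h1.symm
  have htt : (t c * t c') ^ 2 = (algebraMap (Nt k) (Sep K) g) ^ 2 := by
    rw [mul_pow, hz, hz', ← map_mul, hprod, map_pow]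
  have hfix : σ (t c * t c') = t c * t c' := by
    rcases sq_eq_sq_iff_eq_or_eq_neg.1 htt with h | h
    · rw [h, hfixN]
    · rw [h, map_neg, hfixN]
  rw [map_mul, hk σ hσ, hk' σ hσ] at hfix
  have h1 : sC a (c σ) * sC a (c' σ) = 1 := by
    have h3 : (sC a (c σ) * sC a (c' σ)) * (t c * t c') = 1 * (t c * t c') := by
      rw [one_mul]
      linear_combination hfix
    exact mul_right_cancel₀ (mul_ne_zero ht ht') h3
  have h3 := sC_mul_self (a := a) (P := c' σ)
  calc sC a (c σ) = sC a (c σ) * (sC a (c' σ) * sC a (c' σ)) := by rw [h3, mul_one]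
    _ = (sC a (c σ) * sC a (c' σ)) * sC a (c' σ) := by ring
    _ = sC a (c' σ) := by rw [h1, one_mul]

end main

end Pool.Agent.H4.SL
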